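import Pool.Agent.P8H72.Uni.PolyNorm

open Polynomial

namespace Pool.Agent.P8H72.Uni

variable {E : Type*} [NormedAddCommGroup E] [InnerProductSpace ℂ E]

/-- nearly accretive operators: `‖X y‖ ≤ ‖(X + t) y‖` -/
theorem norm_le_norm_add (X : E →L[ℂ] E) {δ t : ℝ} (_hδ : 0 ≤ δ) (ht : 0 < t)
    (hδt : 2 * δ + δ ^ 2 ≤ t) (hX : ‖1 - X‖ ≤ 1 + δ) (y : E) : ‖X y‖ ≤ ‖X y + (t : ℂ) • y‖ := by
  have h1 : ‖y - X y‖ ≤ (1 + δ) * ‖y‖ := by
    have := (1 - X).le_opNorm y
    simp only [sub_apply, one_apply_eq_self] at this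
    exact this.trans (by gcongr)
  have h2 : ‖y - X y‖ ^ 2 ≤ (1 + δ) ^ 2 * ‖y‖ ^ 2 := by
    rw [← mul_pow]
    gcongr
  have h3 : ‖y - X y‖ ^ 2 = ‖y‖ ^ 2 - 2 * RCLike.re (inner ℂ y (X y)) + ‖X y‖ ^ 2 :=
    norm_sub_sq (𝕜 := ℂ) y (X y)
  have h4 : ‖X y + (t : ℂ) • y‖ ^ 2 = ‖X y‖ ^ 2 + 2 * RCLike.re (inner ℂ (X y) ((t : ℂ) • y)) +
      ‖(t : ℂ) • y‖ ^ 2 := norm_add_sq (𝕜 := ℂ) (X y) ((t : ℂ) • y)
  have h5 : RCLike.re (inner ℂ (X y) ((t : ℂ) • y)) = t * RCLike.re (inner ℂ y (X y)) := by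
    have h := inner_re_symm (𝕜 := ℂ) (X y) y
    rw [inner_smul_right, ← h]
    simp
  have h6 : ‖(t : ℂ) • y‖ ^ 2 = t ^ 2 * ‖y‖ ^ 2 := by
    rw [norm_smul, mul_pow]
    simp [abs_of_pos ht]
  rw [h5, h6] at h4
  have h7 : ‖X y‖ ^ 2 ≤ ‖X y + (t : ℂ) • y‖ ^ 2 := by
    rw [h4]
    have h8 : ‖X y‖ ^ 2 - (2 * δ + δ ^ 2) * ‖y‖ ^ 2 ≤ 2 * RCLike.re (inner ℂ y (X y)) := by
      nlinarith
    have h9 : t * (‖X y‖ ^ 2 - (2 * δ + δ ^ 2) * ‖y‖ ^ 2) ≤ t * (2 * RCLike.re (inner ℂ y (X y))) :=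
      mul_le_mul_of_nonneg_left h8 ht.le
    have h10 : t * ((2 * δ + δ ^ 2) * ‖y‖ ^ 2) ≤ t * (t * ‖y‖ ^ 2) := by gcongr
    have h11 : 0 ≤ t * ‖X y‖ ^ 2 := by positivity
    nlinarith
  exact (sq_le_sq₀ (norm_nonneg _) (norm_nonneg _)).mp h7

/-- the main functional calculus estimate -/
theorem exists_good_poly (E : Type*) [NormedAddCommGroup E] [InnerProductSpace ℂ E] (C₀ : ℝ) (D : ℕ) :
    ∃ (g : ℂ[X]) (δ : ℝ), 0 < δ ∧ X ^ D ∣ 1 - g ∧
      ∀ T : E →L[ℂ] E, ‖1 - T‖ ≤ 1 + δ → ∀ p : ℂ[X], p.coeff 0 = 1 → N p ≤ C₀ →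
        ‖aeval T (p * g)‖ ≤ 3 := by
  set M : ℝ := (|C₀| + 1) * (D + 1) with hM
  have hMpos : 1 ≤ M := by
    rw [hM]
    have h1 : (1 : ℝ) ≤ |C₀| + 1 := by linarith [abs_nonneg C₀]
    have h2 : (1 : ℝ) ≤ (D : ℝ) + 1 := by linarith [Nat.cast_nonneg (α := ℝ) D]
    nlinarith
  set t : ℝ := 1 / (12 * M) with ht
  have htpos : 0 < t := by positivity
  have ht1 : t ≤ 1 / 12 := by
    rw [ht]
    gcongr
    linarith
  set δ : ℝ := t / 4 with hδ
  have hδpos : 0 < δ := by positivity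
  have hlt : (1 + δ) / (1 + t) < 1 := by
    rw [div_lt_one (by positivity)]
    linarith
  obtain ⟨K, hK⟩ := exists_pow_lt_of_lt_one (show 0 < 1 / (18 * M) by positivity) hlt
  set η : ℝ := ((1 + δ) / (1 + t)) ^ K with hη
  have hηpos : 0 ≤ η := by positivity
  have hη1 : η ≤ 1 / 18 := by
    refine hK.le.trans ?_
    gcongr
    linarith
  set c : ℂ := ((1 + t : ℝ) : ℂ)⁻¹ with hc
  have hc0 : ((1 + t : ℝ) : ℂ) ≠ 0 := by
    exact_mod_cast (by positivity : (1 + t : ℝ) ≠ 0)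
  have hcn : ‖c‖ = (1 + t)⁻¹ := by
    rw [hc, norm_inv, Complex.norm_real, Real.norm_of_nonneg (by positivity)]
  set u : ℂ[X] := C c * (1 - X) with hu
  set q : ℂ[X] := C c * ∑ k ∈ Finset.range K, u ^ k with hq
  set v : ℂ[X] := X * q with hv
  have e1 : (X + C (t : ℂ)) * C c = 1 - u := by
    have h : C c * (1 + C (t : ℂ)) = (1 : ℂ[X]) := by
      have h2 : (1 : ℂ[X]) + C (t : ℂ) = C (((1 + t : ℝ) : ℂ)) := by
        rw [Complex.ofReal_add, C_add]; simp
      rw [h2, ← C_mul, hc, inv_mul_cancel₀ hc0, C_1]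
    rw [hu]
    linear_combination h
  have e2 : (X + C (t : ℂ)) * q = 1 - u ^ K := by
    rw [hq, ← mul_assoc, e1, mul_neg_geom_sum]
  have e3 : X * (1 - v) = X * u ^ K + C (t : ℂ) * v := by
    rw [hv]
    linear_combination -X * e2
  have hD : (D : ℝ) ≤ M := by
    rw [hM]
    nlinarith [abs_nonneg C₀, Nat.cast_nonneg (α := ℝ) D]
  refine ⟨1 - v ^ D, δ, hδpos, ?_, ?_⟩
  · rw [sub_sub_cancel, hv, mul_pow]
    exact dvd_mul_right _ _
  intro T hT p hp0 hpN
  -- norm bounds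
  have b1 : ‖aeval T u‖ ≤ (1 + δ) / (1 + t) := by
    rw [hu, map_mul, aeval_C, map_sub, map_one, aeval_X, ← Algebra.smul_def, norm_smul, hcn]
    rw [inv_mul_eq_div]
    gcongr
  have b2 : ∀ n, ‖aeval T (u ^ n)‖ ≤ ((1 + δ) / (1 + t)) ^ n := by
    intro n
    rw [map_pow]
    induction n with
    | zero => rw [pow_zero, pow_zero]; exact ContinuousLinearMap.norm_id_le
    | succ n ih =>
      rw [pow_succ, pow_succ]
      exact (norm_mul_le _ _).trans (by gcongr)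
  have b3 : ‖aeval T v‖ ≤ 1 + η := by
    apply ContinuousLinearMap.opNorm_le_bound _ (by positivity)
    intro y
    have h1 : aeval T v y = T (aeval T q y) := by
      rw [hv, map_mul, aeval_X]; rfl
    have h2 : T (aeval T q y) + (t : ℂ) • (aeval T q y) = y - aeval T (u ^ K) y := by
      have := congrArg (fun P : ℂ[X] => aeval T P y) e2
      simp only [map_mul, map_add, aeval_X, aeval_C, map_sub, map_one] at this
      simpa [sub_apply] using this
    rw [h1]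
    refine (norm_le_norm_add T hδpos.le htpos ?_ hT _).trans ?_
    · rw [hδ]
      nlinarith
    · rw [h2]
      refine (norm_sub_le _ _).trans ?_
      have := (aeval T (u ^ K)).le_of_opNorm_le (b2 K) y
      rw [← hη] at this
      linarith
  have b4 : ∀ n, ‖aeval T (v ^ n)‖ ≤ (1 + η) ^ n := by
    intro n
    rw [map_pow]
    induction n with
    | zero => rw [pow_zero, pow_zero]; exact ContinuousLinearMap.norm_id_le
    | succ n ih =>
      rw [pow_succ, pow_succ]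
      exact (norm_mul_le _ _).trans (by gcongr)
  have b5 : (1 + η) ^ D ≤ 3 / 2 := by
    have h1 : (1 + η) ^ D ≤ Real.exp (η * D) := by
      rw [mul_comm, Real.exp_nat_mul]
      gcongr
      linarith [Real.add_one_le_exp η]
    have h2 : η * D ≤ 1 / 18 := by
      have : η * D ≤ (1 / (18 * M)) * M := by gcongr
      refine this.trans (le_of_eq ?_)
      field_simp
    have h3 : Real.exp (η * D) ≤ Real.exp (1 / 18) := Real.exp_le_exp.mpr h2
    have h4 : Real.exp (1 / 18) ≤ 3 / 2 := by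
      have h5 : (1 : ℝ) - 1 / 18 ≤ Real.exp (-(1 / 18)) := by
        have := Real.add_one_le_exp (-(1 / 18 : ℝ))
        linarith
      rw [Real.exp_neg] at h5
      have h6 : 0 < Real.exp (1 / 18) := Real.exp_pos _
      have h7 : (1 - 1 / 18) * Real.exp (1 / 18) ≤ 1 := by
        have := mul_le_mul_of_nonneg_right h5 h6.le
        rwa [inv_mul_cancel₀ h6.ne'] at this
      linarith
    linarith
  have b6 : ‖T‖ ≤ 3 := by
    have h1 : T = 1 - (1 - T) := by abel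
    have h2 : ‖(1 : E →L[ℂ] E)‖ ≤ 1 := ContinuousLinearMap.norm_id_le
    calc ‖T‖ = ‖1 - (1 - T)‖ := by rw [← h1]
      _ ≤ ‖(1 : E →L[ℂ] E)‖ + ‖1 - T‖ := norm_sub_le _ _
      _ ≤ 3 := by linarith
  have b7 : ‖aeval T (X * (1 - v))‖ ≤ 3 * η + 2 * t := by
    rw [e3, map_add]
    refine (norm_add_le _ _).trans (add_le_add ?_ ?_)
    · rw [map_mul, aeval_X]
      refine (norm_mul_le _ _).trans ?_
      have := b2 K
      rw [← hη] at this
      gcongr
    · rw [map_mul, aeval_C, ← Algebra.smul_def, norm_smul, Complex.norm_real,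
        Real.norm_of_nonneg htpos.le]
      have : ‖aeval T v‖ ≤ 2 := by linarith
      nlinarith
  have e4 : X * (1 - v ^ D) = X * (1 - v) * ∑ k ∈ Finset.range D, v ^ k := by
    rw [mul_assoc, mul_neg_geom_sum]
  have b8 : ‖aeval T (∑ k ∈ Finset.range D, v ^ k)‖ ≤ D * (3 / 2) := by
    rw [map_sum]
    refine (norm_sum_le _ _).trans ?_
    have : ∀ k ∈ Finset.range D, ‖aeval T (v ^ k)‖ ≤ 3 / 2 := by
      intro k hk
      refine (b4 k).trans (le_trans ?_ b5)
      apply pow_le_pow_right₀ (by linarith) (Finset.mem_range.mp hk).le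
    refine (Finset.sum_le_sum this).trans ?_
    simp
  have e5 : p * (1 - v ^ D) = (1 - v ^ D) + p.divX * (X * (1 - v ^ D)) := by
    have := Polynomial.divX_mul_X_add p
    rw [hp0, C_1] at this
    conv_lhs => rw [← this]
    ring
  rw [e5, map_add]
  have c1 : ‖aeval T (1 - v ^ D)‖ ≤ 1 + 3 / 2 := by
    rw [map_sub, map_one]
    refine (norm_sub_le _ _).trans (add_le_add ContinuousLinearMap.norm_id_le ((b4 D).trans b5))
  have c2 : ‖aeval T (p.divX * (X * (1 - v ^ D)))‖ ≤ 1 / 2 := by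
    rw [map_mul, e4, map_mul (aeval T) (X * (1 - v))]
    have d1 : ‖aeval T p.divX‖ ≤ |C₀| + 1 :=
      (norm_aeval_le T (by linarith) _).trans ((N_divX_le p).trans
        (by linarith [le_abs_self C₀]))
    have d2 : 3 * η + 2 * t ≤ 1 / (3 * M) := by
      have : 3 * η ≤ 1 / (6 * M) := by
        have h : 3 * η ≤ 3 * (1 / (18 * M)) := by linarith
        refine h.trans (le_of_eq ?_)
        field_simp
        norm_num
      have h2 : 2 * t = 1 / (6 * M) := by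
        rw [ht]; field_simp; norm_num
      rw [h2]
      have h3 : 1 / (6 * M) + 1 / (6 * M) = 1 / (3 * M) := by
        field_simp; norm_num
      linarith
    calc ‖aeval T p.divX * (aeval T (X * (1 - v)) * aeval T (∑ k ∈ Finset.range D, v ^ k))‖
        ≤ ‖aeval T p.divX‖ * (‖aeval T (X * (1 - v))‖ * ‖aeval T (∑ k ∈ Finset.range D, v ^ k)‖) := by
          refine (norm_mul_le _ _).trans ?_
          gcongr
          exact norm_mul_le _ _
      _ ≤ (|C₀| + 1) * (1 / (3 * M) * (D * (3 / 2))) := by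
          gcongr
          exact b7.trans d2
      _ ≤ (|C₀| + 1) * (1 / (3 * M) * ((D + 1) * (3 / 2))) := by
          gcongr
          linarith
      _ = 1 / 2 := by
          rw [hM]
          have h1 : (|C₀| + 1) ≠ 0 := by positivity
          have h2 : ((D : ℝ) + 1) ≠ 0 := by positivity
          field_simp
  linarith [norm_add_le (aeval T (1 - v ^ D)) (aeval T (p.divX * (X * (1 - v ^ D))))]

end Pool.Agent.P8H72.Uni
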