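import Mathlib

/-!
Definitions for the problem on the spectrum of unicellular operators.
-/

namespace Pool.Agent.P8H72.Uni

universe u

variable {H : Type u} [NormedAddCommGroup H] [InnerProductSpace ℂ H]

/-- `M` is a closed linear subspace of `H` with `A x ∈ M` for all `x ∈ M`. -/
def InvariantSubspace (A : H →L[ℂ] H) (M : Submodule ℂ H) : Prop :=
  IsClosed (M : Set H) ∧ ∀ x ∈ M, A x ∈ M

/-- The invariant (closed) subspaces of `A` are totally ordered by inclusion. -/
def Unicellular (A : H →L[ℂ] H) : Prop :=
  ∀ M N : Submodule ℂ H, InvariantSubspace A M → InvariantSubspace A N → M ≤ N ∨ N ≤ M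

end Pool.Agent.P8H72.Uni
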