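import Pool.Agent.P8H72.Uni.Good

open Polynomial

namespace Pool.Agent.P8H72.Uni

/-- the flat vector on the block `[D, D + d)` -/
noncomputable def flat (D d : ℕ) : L2 := ∑ i ∈ Finset.Ico D (D + d), ((Real.sqrt d)⁻¹ : ℂ) • e i

theorem flat_apply (D d i : ℕ) :
    flat D d i = if D ≤ i ∧ i < D + d then ((Real.sqrt d)⁻¹ : ℂ) else 0 := by
  unfold flat
  rw [lp.coeFn_sum, Finset.sum_apply]
  simp only [lp.coeFn_smul, Pi.smul_apply, smul_eq_mul, e_apply, mul_ite, mul_one, mul_zero]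
  rw [Finset.sum_ite_eq]
  simp [Finset.mem_Ico]

theorem norm_flat (D d : ℕ) (hd : 1 ≤ d) : ‖flat D d‖ = 1 := by
  have h : ‖flat D d‖ ^ 2 = 1 := by
    rw [L2.norm_sq, tsum_eq_sum (s := Finset.Ico D (D + d))]
    · have : ∀ i ∈ Finset.Ico D (D + d), ‖flat D d i‖ ^ 2 = (d : ℝ)⁻¹ := by
        intro i hi
        rw [flat_apply, if_pos (Finset.mem_Ico.mp hi), norm_inv, Complex.norm_real,
          Real.norm_of_nonneg (Real.sqrt_nonneg _), inv_pow, Real.sq_sqrt (Nat.cast_nonneg d)]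
      rw [Finset.sum_congr rfl this]
      simp only [Finset.sum_const, Nat.card_Ico, nsmul_eq_mul]
      rw [show D + d - D = d by omega]
      have : (d : ℝ) ≠ 0 := by positivity
      field_simp
    · intro i hi
      rw [flat_apply, if_neg (by simpa [Finset.mem_Ico] using hi)]
      simp
  have h2 : 0 ≤ ‖flat D d‖ := norm_nonneg _
  nlinarith

theorem eig (D : ℕ) (ρ₀ η : ℝ) (hρ₀ : ρ₀ < 1) (hη : 0 < η) :
    ∃ (ρ : ℝ) (d : ℕ) (ε₁ : ℝ), ρ₀ ≤ ρ ∧ 9 / 10 ≤ ρ ∧ ρ < 1 ∧ 1 ≤ d ∧ 0 < ε₁ ∧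
      ∀ P : Par, (∀ i, D ≤ i → i < D + d → P.r i = ρ) → (∀ i, D ≤ i → i + 1 < D + d → P.a i = 1) →
        P.a (D + d - 1) ≤ ε₁ → ∃ x : L2, ‖x‖ = 1 ∧ ‖P.T x - (2 : ℂ) • x‖ ≤ η := by
  set ρ : ℝ := max (9 / 10) (max ρ₀ (1 - η / 3)) with hρ
  have hρ1 : ρ < 1 := by
    rw [hρ]
    exact max_lt (by norm_num) (max_lt hρ₀ (by linarith))
  have hρ9 : 9 / 10 ≤ ρ := le_max_left _ _
  have hρη : 1 - ρ ≤ η / 3 := by
    have : 1 - η / 3 ≤ ρ := (le_max_right _ _).trans (le_max_right _ _)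
    linarith
  obtain ⟨d, hd⟩ := exists_nat_ge (30 / (η ^ 2 * (1 - ρ)))
  have h1ρ : 0 < 1 - ρ := by linarith
  have hd0 : 0 < (d : ℝ) := lt_of_lt_of_le (by positivity) hd
  have hd1 : 1 ≤ d := by exact_mod_cast hd0
  refine ⟨ρ, d, η / 4, (le_max_left _ _).trans (le_max_right _ _), hρ9, hρ1, hd1, by positivity, ?_⟩
  intro P hPr hPa hPε
  refine ⟨flat D d, norm_flat D d hd1, ?_⟩
  set w : ℝ := (Real.sqrt d)⁻¹ with hw
  have hw2 : w ^ 2 = (d : ℝ)⁻¹ := by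
    rw [hw, inv_pow, Real.sq_sqrt hd0.le]
  have hwpos : 0 < w := by rw [hw]; positivity
  set Q : ℝ := Real.sqrt (1 - ρ ^ 2) with hQ
  have hQ2 : Q ^ 2 = 1 - ρ ^ 2 := by
    rw [hQ, Real.sq_sqrt]
    nlinarith
  have hqi : ∀ i, D ≤ i → i < D + d → P.q i = Q := by
    intro i h1 h2
    rw [hQ, Par.q, hPr i h1 h2]
  -- the state
  have hstD : P.st (flat D d) D = 0 := by
    apply P.st_tail _ D _ D le_rfl
    intro i hi
    rw [flat_apply, if_neg (by omega)]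
  have hst : ∀ k, k < d → P.st (flat D d) (D + k) = ((Q * w * ((1 - ρ ^ k) / (1 - ρ)) : ℝ) : ℂ) := by
    intro k
    induction k with
    | zero => intro _; rw [add_zero, hstD]; simp
    | succ k ih =>
      intro hk
      rw [← add_assoc, P.st_succ, ih (by omega), hPa (D + k) (by omega) (by omega),
        hPr (D + k) (by omega) (by omega), hqi (D + k) (by omega) (by omega), flat_apply,
        if_pos (by omega), ← Complex.ofReal_inv, ← hw, ← Complex.ofReal_mul, ← Complex.ofReal_mul,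
        ← Complex.ofReal_add, ← Complex.ofReal_mul]
      congr 1
      have : (1 - ρ) ≠ 0 := h1ρ.ne'
      field_simp
      ring
  have hval : ∀ k, k < d → (P.T (flat D d) - (2 : ℂ) • flat D d) (D + k) =
      ((w * ((1 - ρ) / ρ - (1 + ρ) / ρ * ρ ^ k) : ℝ) : ℂ) := by
    intro k hk
    rw [lp.coeFn_sub, Pi.sub_apply, lp.coeFn_smul, Pi.smul_apply, P.T_apply, hst k hk,
      hPr (D + k) (by omega) (by omega), hqi (D + k) (by omega) (by omega), flat_apply,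
      if_pos (by omega), ← Complex.ofReal_inv, ← hw, smul_eq_mul]
    have h2 : (2 : ℂ) = ((2 : ℝ) : ℂ) := by norm_num
    rw [h2, ← Complex.ofReal_mul, ← Complex.ofReal_mul, ← Complex.ofReal_sub]
    congr 1
    have h3 : (1 - ρ) ≠ 0 := h1ρ.ne'
    have h4 : ρ ≠ 0 := by linarith
    have h5 : Q / ρ * (Q * w * ((1 - ρ ^ k) / (1 - ρ))) = Q ^ 2 / ρ * w * ((1 - ρ ^ k) / (1 - ρ)) := by
      ring
    rw [h5, hQ2]
    field_simp
    ring
  -- the bound
  refine L2.norm_le _ hη.le fun n => ?_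
  have hsub : ∑ i ∈ Finset.range n, ‖(P.T (flat D d) - (2 : ℂ) • flat D d) i‖ ^ 2 ≤
      ∑ i ∈ Finset.range (D + d + n), ‖(P.T (flat D d) - (2 : ℂ) • flat D d) i‖ ^ 2 := by
    apply Finset.sum_le_sum_of_subset_of_nonneg
    · intro i hi
      rw [Finset.mem_range] at hi ⊢
      omega
    · intro i _ _
      positivity
  refine hsub.trans ?_
  rw [Finset.range_eq_Ico, ← Finset.sum_Ico_consecutive _ (Nat.zero_le (D + d)) (by omega : D + d ≤ D + d + n),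
    ← Finset.sum_Ico_consecutive _ (Nat.zero_le D) (by omega : D ≤ D + d)]
  have hs1 : ∑ i ∈ Finset.Ico 0 D, ‖(P.T (flat D d) - (2 : ℂ) • flat D d) i‖ ^ 2 = 0 := by
    apply Finset.sum_eq_zero
    intro i hi
    have hi2 := (Finset.mem_Ico.mp hi).2
    have h1 : Tail D (flat D d) := fun j hj => by rw [flat_apply, if_neg (by omega)]
    rw [lp.coeFn_sub, Pi.sub_apply, P.strict D _ h1 i (by omega), lp.coeFn_smul, Pi.smul_apply,
      h1 i hi2]
    simp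
  have hs2 : ∑ i ∈ Finset.Ico D (D + d), ‖(P.T (flat D d) - (2 : ℂ) • flat D d) i‖ ^ 2 ≤
      3 * (1 - ρ) ^ 2 + 10 / (d * (1 - ρ)) := by
    rw [Finset.sum_Ico_eq_sum_range, show D + d - D = d by omega]
    have h1 : ∀ k ∈ Finset.range d, ‖(P.T (flat D d) - (2 : ℂ) • flat D d) (D + k)‖ ^ 2 ≤
        (d : ℝ)⁻¹ * (3 * (1 - ρ) ^ 2 + 10 * ρ ^ k) := by
      intro k hk
      rw [hval k (Finset.mem_range.mp hk), Complex.norm_real, Real.norm_eq_abs, sq_abs, mul_pow, hw2]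
      gcongr
      have hρk : ρ ^ k ≤ 1 := pow_le_one₀ (by linarith) hρ1.le
      have hρk0 : 0 < ρ ^ k := by positivity
      have h2 : ρ ≠ 0 := by linarith
      have h3 : (1 - ρ) / ρ ≤ 10 / 9 * (1 - ρ) := by
        rw [div_le_iff₀ (by linarith)]
        nlinarith
      have h3' : 0 ≤ (1 - ρ) / ρ := by positivity
      have h4 : (1 + ρ) / ρ ≤ 20 / 9 := by
        rw [div_le_iff₀ (by linarith)]
        nlinarith
      have h4' : 0 ≤ (1 + ρ) / ρ := by positivity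
      have h5 : ((1 - ρ) / ρ - (1 + ρ) / ρ * ρ ^ k) ^ 2 ≤
          2 * ((1 - ρ) / ρ) ^ 2 + 2 * ((1 + ρ) / ρ * ρ ^ k) ^ 2 := by
        nlinarith [sq_nonneg ((1 - ρ) / ρ + (1 + ρ) / ρ * ρ ^ k)]
      have h6 : ((1 - ρ) / ρ) ^ 2 ≤ (10 / 9 * (1 - ρ)) ^ 2 := by gcongr
      have h7 : ((1 + ρ) / ρ * ρ ^ k) ^ 2 ≤ (20 / 9) ^ 2 * ρ ^ k := by
        have : ((1 + ρ) / ρ * ρ ^ k) ^ 2 = ((1 + ρ) / ρ) ^ 2 * (ρ ^ k * ρ ^ k) := by ring
        rw [this]
        have h8 : ρ ^ k * ρ ^ k ≤ ρ ^ k * 1 := by gcongr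
        rw [mul_one] at h8
        gcongr
      nlinarith
    refine (Finset.sum_le_sum h1).trans ?_
    have h0 : ∑ k ∈ Finset.range d, 10 * ρ ^ k = 10 * ∑ k ∈ Finset.range d, ρ ^ k :=
      (Finset.mul_sum _ _ _).symm
    rw [← Finset.mul_sum, Finset.sum_add_distrib, h0, Finset.sum_const, Finset.card_range,
      nsmul_eq_mul]
    have h2 : ∑ k ∈ Finset.range d, ρ ^ k ≤ 1 / (1 - ρ) := by
      rw [geom_sum_eq hρ1.ne]
      rw [show (ρ ^ d - 1) / (ρ - 1) = (1 - ρ ^ d) / (1 - ρ) by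
        rw [← neg_sub 1 (ρ ^ d), ← neg_sub 1 ρ, neg_div_neg_eq]]
      gcongr
      have : 0 ≤ ρ ^ d := by positivity
      linarith
    calc (d : ℝ)⁻¹ * (d * (3 * (1 - ρ) ^ 2) + 10 * ∑ k ∈ Finset.range d, ρ ^ k)
        ≤ (d : ℝ)⁻¹ * (d * (3 * (1 - ρ) ^ 2) + 10 * (1 / (1 - ρ))) := by gcongr
      _ = 3 * (1 - ρ) ^ 2 + 10 / (d * (1 - ρ)) := by
          field_simp
  have hs3 : ∑ i ∈ Finset.Ico (D + d) (D + d + n), ‖(P.T (flat D d) - (2 : ℂ) • flat D d) i‖ ^ 2 ≤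
      5 * (η / 4) ^ 2 := by
    have h1 : ∑ i ∈ Finset.Ico (D + d) (D + d + n), ‖(P.T (flat D d) - (2 : ℂ) • flat D d) i‖ ^ 2 =
        ∑ i ∈ Finset.Ico (D + d) (D + d + n), ‖P.T (flat D d) i‖ ^ 2 := by
      apply Finset.sum_congr rfl
      intro i hi
      have := (Finset.mem_Ico.mp hi).1
      rw [lp.coeFn_sub, Pi.sub_apply, lp.coeFn_smul, Pi.smul_apply, flat_apply, if_neg (by omega)]
      simp
    rw [h1]
    refine (P.tail_bound (D + d) (flat D d) (fun i hi => by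
      rw [flat_apply, if_neg (by omega)]) _).trans ?_
    have h2 : ‖P.st (flat D d) (D + d)‖ ≤ η / 4 * 2 := by
      rw [show D + d = (D + d - 1) + 1 by omega, P.st_succ, norm_mul, Complex.norm_real,
        Real.norm_of_nonneg (P.ha _).1.le]
      have h4 := P.hr (D + d - 1)
      have h5 : P.q (D + d - 1) ≤ 1 := by
        have := P.q_sq (D + d - 1)
        have := P.q_pos (D + d - 1)
        nlinarith
      have h6 : ‖(P.r (D + d - 1) : ℂ) * P.st (flat D d) (D + d - 1) +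
          (P.q (D + d - 1) : ℂ) * flat D d (D + d - 1)‖ ≤ 2 := by
        refine (norm_add_le _ _).trans ?_
        rw [norm_mul, norm_mul, Complex.norm_real, Complex.norm_real,
          Real.norm_of_nonneg (by linarith), Real.norm_of_nonneg (P.q_pos _).le]
        have h7 := P.st_norm_le (flat D d) (D + d - 1)
        have h8 := L2.norm_apply_le (flat D d) (D + d - 1)
        rw [norm_flat D d hd1] at h7 h8
        have h9 : P.r (D + d - 1) * ‖P.st (flat D d) (D + d - 1)‖ ≤ 1 * 1 := by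
          gcongr
          exact h4.2.le
        have h10 : P.q (D + d - 1) * ‖flat D d (D + d - 1)‖ ≤ 1 * 1 := by gcongr
        linarith
      have := (P.ha (D + d - 1)).1
      gcongr
    have h3 : ‖P.st (flat D d) (D + d)‖ ^ 2 ≤ (η / 4 * 2) ^ 2 := by gcongr
    nlinarith [sq_nonneg (η / 4)]
  rw [hs1, zero_add]
  have hb1 : 3 * (1 - ρ) ^ 2 ≤ η ^ 2 / 3 := by
    have : (1 - ρ) ^ 2 ≤ (η / 3) ^ 2 := by gcongr
    nlinarith
  have hb2 : 10 / (d * (1 - ρ)) ≤ η ^ 2 / 3 := by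
    rw [div_le_iff₀ (by positivity)]
    rw [div_le_iff₀ (by positivity)] at hd
    linarith
  nlinarith [sq_nonneg η]

end Pool.Agent.P8H72.Uni
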