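import Pool.Agent.P8H72.Uni.Rec
import Pool.Agent.P8H72.Uni.Defs

open Polynomial

namespace Pool.Agent.P8H72.Uni

universe u



/-- polynomials preserve invariant subspaces -/
theorem aeval_mem {H : Type u} [NormedAddCommGroup H] [InnerProductSpace ℂ H] {A : H →L[ℂ] H}
    {M : Submodule ℂ H} (hM : InvariantSubspace A M) (p : ℂ[X]) (x : H) (hx : x ∈ M) :
    aeval A p x ∈ M := by
  have hpow : ∀ k, (A ^ k) x ∈ M := by
    intro k
    induction k with
    | zero => simpa using hx
    | succ k ih => rw [pow_succ']; exact hM.2 _ ih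
  rw [Polynomial.aeval_eq_sum_range, sum_apply]
  exact Submodule.sum_mem _ fun k _ => M.smul_mem _ (hpow k)

/-- a closed invariant subspace containing a vector with leading index `n` contains `e n` -/
theorem e_mem {M : Submodule ℂ L2} (hM : InvariantSubspace lim.T M) (n : ℕ) (f : L2)
    (hf : Tail n f) (hfn : f n ≠ 0) (hfM : f ∈ M) : e n ∈ M := by
  -- normalise
  set f' : L2 := (f n)⁻¹ • f with hf'
  have h1 : f' ∈ M := M.smul_mem _ hfM
  have h2 : Tail n f' := by
    intro i hi
    rw [hf', lp.coeFn_smul, Pi.smul_apply, hf i hi, smul_zero]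
  have h3 : f' n = 1 := by
    rw [hf', lp.coeFn_smul, Pi.smul_apply, smul_eq_mul, inv_mul_cancel₀ hfn]
  have key : ∀ ε > 0, ∃ y ∈ M, ‖y - e n‖ < ε := by
    intro ε hε
    obtain ⟨k₁, hk₁⟩ := exists_nat_gt (3 / ε)
    have h4 : ∀ᶠ D in Filter.atTop, ‖f' - trunc D f'‖ < ε / 6 :=
      (tendsto_trunc f').eventually (gt_mem_nhds (by positivity))
    obtain ⟨k₂, hk₂⟩ := Filter.eventually_atTop.mp h4
    obtain ⟨k₃, hk₃⟩ := exists_nat_gt ‖f'‖
    set k := k₁ + k₂ + k₃ + n + 1 with hk
    have hD := lt_D k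
    set D := (seq k).D with hDdef
    have hDr : (k₁ : ℝ) ≤ D := by
      have : k₁ ≤ D := by omega
      exact_mod_cast this
    have hDr3 : (k₃ : ℝ) ≤ D := by
      have : k₃ ≤ D := by omega
      exact_mod_cast this
    have hDpos : (0 : ℝ) < D := by
      have : 0 < D := by omega
      exact_mod_cast this
    obtain ⟨h, hh⟩ := (lim_good k).1 n (by omega) f' h2 h3 (by linarith)
    refine ⟨aeval lim.T h f', aeval_mem hM h f' h1, lt_of_le_of_lt hh ?_⟩
    have h5 : ‖f' - trunc D f'‖ < ε / 6 := hk₂ D (by omega)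
    have h6 : 1 / (D : ℝ) ≤ ε / 3 := by
      rw [div_le_iff₀ hDpos]
      have h7 : 3 / ε ≤ D := by linarith
      rw [div_le_iff₀ hε] at h7
      linarith
    linarith
  have h4 : e n ∈ closure (M : Set L2) := by
    rw [Metric.mem_closure_iff]
    intro ε hε
    obtain ⟨y, hy, hy2⟩ := key ε hε
    exact ⟨y, hy, by rw [dist_comm, dist_eq_norm]; exact hy2⟩
  rwa [hM.1.closure_eq] at h4

theorem e_mem_of_le {M : Submodule ℂ L2} (hM : InvariantSubspace lim.T M) (n : ℕ) (h : e n ∈ M)
    (m : ℕ) (hm : n ≤ m) : e m ∈ M := by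
  induction m, hm using Nat.le_induction with
  | base => exact h
  | succ m _ ih =>
    apply e_mem hM (m + 1) (lim.T (e m)) (lim.strict m _ (tail_e m)) _ (hM.2 _ ih)
    rw [lim.T_succ m _ (tail_e m), e_self, mul_one]
    have := lim.q_pos m
    have := lim.q_pos (m + 1)
    have := (lim.ha m).1
    have := (lim.hr (m + 1)).1
    have h : 0 < lim.r (m + 1) := by linarith
    have h2 : lim.q (m + 1) / lim.r (m + 1) * (lim.a m * lim.q m) ≠ 0 := by positivity
    exact Complex.ofReal_ne_zero.mpr h2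

/-- leading index -/
theorem exists_lead (f : L2) (hf : f ≠ 0) : ∃ n, Tail n f ∧ f n ≠ 0 := by
  classical
  have h : ∃ n, f n ≠ 0 := by
    by_contra hc
    push Not at hc
    exact hf (by ext i; simpa using hc i)
  refine ⟨Nat.find h, fun i hi => ?_, Nat.find_spec h⟩
  have := Nat.find_min h hi
  simpa using this

theorem unicellular_T : Unicellular lim.T := by
  intro M N hM hN
  by_contra hc
  rw [not_or] at hc
  obtain ⟨hc1, hc2⟩ := hc
  obtain ⟨f, hfM, hfN⟩ := Set.not_subset.mp hc1
  obtain ⟨g, hgN, hgM⟩ := Set.not_subset.mp hc2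
  have hf0 : f ≠ 0 := by
    rintro rfl
    exact hfN N.zero_mem
  have hg0 : g ≠ 0 := by
    rintro rfl
    exact hgM M.zero_mem
  obtain ⟨n, hn1, hn2⟩ := exists_lead f hf0
  obtain ⟨m, hm1, hm2⟩ := exists_lead g hg0
  have h1 := e_mem hM n f hn1 hn2 hfM
  have h2 := e_mem hN m g hm1 hm2 hgN
  rcases le_total n m with h | h
  · exact hgM (mem_of_tail M hM.1 n (e_mem_of_le hM n h1) g fun i hi => hm1 i (by omega))
  · exact hfN (mem_of_tail N hN.1 m (e_mem_of_le hN m h2) f fun i hi => hn1 i (by omega))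

/-- approximate eigenvalues are in the spectrum -/
theorem mem_spectrum_of_approx {E : Type u} [NormedAddCommGroup E] [NormedSpace ℂ E]
    (A : E →L[ℂ] E) (c : ℂ) (h : ∀ ε > 0, ∃ x : E, ‖x‖ = 1 ∧ ‖A x - c • x‖ ≤ ε) :
    c ∈ spectrum ℂ A := by
  intro hu
  obtain ⟨B, hB⟩ := hu.exists_left_inv
  have h1 : ∀ x, B (c • x - A x) = x := by
    intro x
    have := congrArg (fun C : E →L[ℂ] E => C x) hB
    simp only [one_apply_eq_self] at this
    conv_rhs => rw [← this]
    show _ = B ((algebraMap ℂ (E →L[ℂ] E) c - A) x)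
    rw [sub_apply, Algebra.algebraMap_eq_smul_one]
    rfl
  have hBpos : 0 < ‖B‖ + 1 := by positivity
  obtain ⟨x, hx1, hx2⟩ := h (1 / (2 * (‖B‖ + 1))) (by positivity)
  have h2 : ‖x‖ ≤ ‖B‖ * ‖c • x - A x‖ := by
    conv_lhs => rw [← h1 x]
    exact B.le_opNorm _
  rw [hx1, norm_sub_rev] at h2
  have h3 : ‖B‖ * ‖A x - c • x‖ ≤ (‖B‖ + 1) * (1 / (2 * (‖B‖ + 1))) := by
    gcongr
    linarith
  have h4 : (‖B‖ + 1) * (1 / (2 * (‖B‖ + 1))) = 1 / 2 := by
    field_simp
  linarith

theorem zero_mem_spectrum {E : Type u} [NormedAddCommGroup E] [NormedSpace ℂ E]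
    (A : E →L[ℂ] E) (h : ¬ Function.Surjective A) : (0 : ℂ) ∈ spectrum ℂ A := by
  intro hu0
  have hu : IsUnit (algebraMap ℂ (E →L[ℂ] E) 0 - A) := hu0
  rw [map_zero, zero_sub, IsUnit.neg_iff] at hu
  obtain ⟨B, hB⟩ := hu.exists_right_inv
  apply h
  intro y
  exact ⟨B y, by
    have := congrArg (fun C : E →L[ℂ] E => C y) hB
    simpa using this⟩

/-- a Hilbert basis indexed by the natural numbers -/
theorem exists_nat_basis (H : Type u) [NormedAddCommGroup H] [InnerProductSpace ℂ H]
    [CompleteSpace H] [TopologicalSpace.SeparableSpace H] (hinf : ¬ FiniteDimensional ℂ H) :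
    Nonempty (HilbertBasis ℕ ℂ H) := by
  obtain ⟨w, b, hb⟩ := exists_hilbertBasis ℂ H
  have hcount : w.Countable := by
    have hdis : w.PairwiseDisjoint fun x => Metric.ball x (1 / 2) := by
      intro x hx y hy hxy
      apply Metric.ball_disjoint_ball
      have h1 : inner ℂ x y = 0 := by
        have := b.orthonormal.2 (i := ⟨x, hx⟩) (j := ⟨y, hy⟩) (by simpa using hxy)
        rw [hb] at this
        exact this
      have hx1 : ‖x‖ = 1 := by
        have := b.orthonormal.1 ⟨x, hx⟩
        rw [hb] at this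
        exact this
      have hy1 : ‖y‖ = 1 := by
        have := b.orthonormal.1 ⟨y, hy⟩
        rw [hb] at this
        exact this
      have h2 : ‖x - y‖ ^ 2 = 2 := by
        rw [@norm_sub_sq ℂ, h1, hx1, hy1]
        norm_num
      rw [dist_eq_norm]
      have := norm_nonneg (x - y)
      nlinarith
    exact hdis.countable_of_isOpen (fun _ _ => Metric.isOpen_ball)
      (fun x _ => ⟨x, Metric.mem_ball_self (by norm_num)⟩)
  have hinfw : Infinite w := by
    by_contra hfin
    rw [not_infinite_iff_finite] at hfin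
    apply hinf
    have h1 := b.dense_span
    have h2 : FiniteDimensional ℂ (Submodule.span ℂ (Set.range b)) :=
      FiniteDimensional.span_of_finite ℂ (Set.finite_range b)
    have h3 : IsClosed (Submodule.span ℂ (Set.range b) : Set H) :=
      Submodule.closed_of_finiteDimensional _
    rw [h3.submodule_topologicalClosure_eq] at h1
    rw [h1] at h2
    exact Module.Finite.of_surjective (Submodule.subtype (⊤ : Submodule ℂ H))
      (fun x => ⟨⟨x, trivial⟩, rfl⟩)
  have : Countable w := hcount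
  obtain ⟨φ⟩ : Nonempty (Denumerable w) := nonempty_denumerable w
  let ψ : ℕ ≃ w := (Denumerable.eqv w).symm
  refine ⟨HilbertBasis.mk (v := fun n => b (ψ n)) (b.orthonormal.comp _ ψ.injective) ?_⟩
  have h1 := b.dense_span
  have h2 : Set.range (fun n => b (ψ n)) = Set.range b := by
    rw [show (fun n => b (ψ n)) = b ∘ ψ from rfl]
    exact ψ.surjective.range_comp b
  rw [h2, h1]

/-- transport to an arbitrary separable infinite dimensional Hilbert space -/
theorem main (H : Type u) [NormedAddCommGroup H] [InnerProductSpace ℂ H] [CompleteSpace H]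
    [TopologicalSpace.SeparableSpace H] (hinf : ¬ FiniteDimensional ℂ H) :
    ∃ A : H →L[ℂ] H, Unicellular A ∧ (0 : ℂ) ∈ spectrum ℂ A ∧ (2 : ℂ) ∈ spectrum ℂ A := by
  obtain ⟨b⟩ := exists_nat_basis H hinf
  let U : H ≃ₗᵢ[ℂ] L2 := b.repr
  let A : H →L[ℂ] H := (U.symm.toContinuousLinearEquiv : L2 →L[ℂ] H).comp
    (lim.T.comp (U.toContinuousLinearEquiv : H →L[ℂ] L2))
  have hA : ∀ x, A x = U.symm (lim.T (U x)) := fun x => rfl
  refine ⟨A, ?_, ?_, ?_⟩
  · intro M N hM hN
    have htr : ∀ K : Submodule ℂ H, InvariantSubspace A K →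
        InvariantSubspace lim.T (K.map (U.toLinearEquiv : H →ₗ[ℂ] L2)) := by
      intro K hK
      constructor
      · rw [Submodule.map_coe]
        exact U.toHomeomorph.isClosedMap _ hK.1
      · rintro y ⟨x, hx, rfl⟩
        refine ⟨A x, hK.2 x hx, ?_⟩
        show U (A x) = lim.T (U x)
        rw [hA, U.apply_symm_apply]
    rcases unicellular_T _ _ (htr M hM) (htr N hN) with h | h
    · exact Or.inl ((Submodule.map_le_map_iff_of_injective U.injective _ _).mp h)
    · exact Or.inr ((Submodule.map_le_map_iff_of_injective U.injective _ _).mp h)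
  · apply zero_mem_spectrum
    intro hs
    obtain ⟨x, hx⟩ := hs (U.symm (e 0))
    rw [hA] at hx
    have h1 := U.symm.injective hx
    have h2 : lim.T (U x) 0 = 0 := lim.strict 0 _ (fun i hi => by omega) 0 (by omega)
    rw [h1, e_self] at h2
    exact one_ne_zero h2
  · apply mem_spectrum_of_approx
    intro ε hε
    obtain ⟨k, hk⟩ := exists_nat_gt (1 / ε)
    obtain ⟨x, hx1, hx2⟩ := (lim_good k).2
    refine ⟨U.symm x, by rw [U.symm.norm_map, hx1], ?_⟩
    have h1 : A (U.symm x) - (2 : ℂ) • U.symm x = U.symm (lim.T x - (2 : ℂ) • x) := by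
      rw [hA, U.apply_symm_apply, map_sub, map_smul]
    rw [h1, U.symm.norm_map]
    refine hx2.trans ?_
    have hD := lt_D k
    have hDr : (k : ℝ) < (seq k).D := by exact_mod_cast hD
    have hpos : (0 : ℝ) < (seq k).D := lt_of_le_of_lt (Nat.cast_nonneg k) hDr
    rw [div_le_iff₀ hpos]
    rw [div_lt_iff₀ hε] at hk
    nlinarith

end Pool.Agent.P8H72.Uni
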