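import Pool.Agent.P8H72.Uni.Model

open Polynomial

namespace Pool.Agent.P8H72.Uni

/-- basis vectors are nearly reached by polynomials, up to the tail of the vector -/
def Good (T : L2 →L[ℂ] L2) (D : ℕ) : Prop :=
  ∀ n < D, ∀ f : L2, Tail n f → f n = 1 → ‖f‖ ≤ D →
    ∃ h : ℂ[X], ‖aeval T h f - e n‖ ≤ 1 / D + 3 * ‖f - trunc D f‖

/-- the cut operator -/
theorem approx {T : L2 →L[ℂ] L2} (hT : Strict T) (hTn : ‖T‖ ≤ 3) (D : ℕ) {ε : ℝ}
    (hcut : ∀ x : L2, ‖T (trunc D x) - trunc D (T (trunc D x))‖ ≤ ε * ‖x‖) (hε : 0 ≤ ε)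
    (p g : ℂ[X]) (hg : X ^ D ∣ 1 - g) (n : ℕ) (f : L2) (hp : trunc D (aeval T p f) = e n) :
    ‖aeval T (p * g) (trunc D f) - e n‖ ≤ N (p * g) * ε * ‖f‖ := by
  -- the operator `trunc D ∘ T ∘ trunc D`
  set Tc : L2 →L[ℂ] L2 := (trunc D).comp (T.comp (trunc D)) with hTc
  set T' : L2 →L[ℂ] L2 := T.comp (trunc D) with hT'
  have htr : ∀ x, trunc D (T x) = trunc D (T (trunc D x)) := by
    intro x
    have h1 : Tail D (T (x - trunc D x)) := fun i hi => hT D _ (tail_sub_trunc D x) i (by omega)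
    have h2 := (tail_iff_trunc D _).mp h1
    rw [map_sub, map_sub, sub_eq_zero] at h2
    exact h2
  -- powers
  have hpow : ∀ k x, (Tc ^ k) (trunc D x) = trunc D ((T ^ k) x) := by
    intro k x
    induction k with
    | zero => simp
    | succ k ih =>
      rw [pow_succ', pow_succ']
      show Tc ((Tc ^ k) (trunc D x)) = trunc D (T ((T ^ k) x))
      rw [ih, hTc]
      show trunc D (T (trunc D (trunc D ((T ^ k) x)))) = _
      rw [trunc_trunc, ← htr]
  have hpol : ∀ (h : ℂ[X]) (x : L2), aeval Tc h (trunc D x) = trunc D (aeval T h x) := by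
    intro h x
    rw [Polynomial.aeval_eq_sum_range, Polynomial.aeval_eq_sum_range, sum_apply, sum_apply, map_sum]
    apply Finset.sum_congr rfl
    intro k _
    simp only [FunLike.coe_smul, Pi.smul_apply, map_smul]
    rw [hpow]
  -- `T - Tc'` where `Tc' = T - (1 - trunc) T trunc`
  set S : L2 →L[ℂ] L2 := T - (T' - Tc) with hS
  have hSn : ‖T' - Tc‖ ≤ ε := by
    apply ContinuousLinearMap.opNorm_le_bound _ hε
    intro x
    exact hcut x
  have hStr : ∀ x, S (trunc D x) = Tc (trunc D x) := by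
    intro x
    rw [hS]
    show T (trunc D x) - (T (trunc D (trunc D x)) - Tc (trunc D x)) = Tc (trunc D x)
    rw [trunc_trunc]
    abel
  have hSpow : ∀ k x, (S ^ k) (trunc D x) = (Tc ^ k) (trunc D x) := by
    intro k x
    induction k with
    | zero => simp
    | succ k ih =>
      rw [pow_succ', pow_succ']
      show S ((S ^ k) (trunc D x)) = Tc ((Tc ^ k) (trunc D x))
      rw [ih, hpow, hStr]
  have hSpol : ∀ (h : ℂ[X]) (x : L2), aeval S h (trunc D x) = trunc D (aeval T h x) := by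
    intro h x
    rw [← hpol, Polynomial.aeval_eq_sum_range, Polynomial.aeval_eq_sum_range, sum_apply, sum_apply]
    apply Finset.sum_congr rfl
    intro k _
    simp only [FunLike.coe_smul, Pi.smul_apply]
    rw [hSpow]
  have hSn3 : ‖S‖ ≤ 3 := by
    -- S = T (1 - trunc) + Tc
    apply ContinuousLinearMap.opNorm_le_bound _ (by norm_num)
    intro x
    have h1 : S x = T (x - trunc D x) + trunc D (T (trunc D x)) := by
      rw [hS, map_sub]
      show T x - (T (trunc D x) - trunc D (T (trunc D x))) = _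
      abel
    have h2 : trunc D (S x) = trunc D (T (trunc D x)) := by
      rw [h1, map_add, trunc_trunc]
      have h3 : Tail D (T (x - trunc D x)) := fun i hi => hT D _ (tail_sub_trunc D x) i (by omega)
      rw [(tail_iff_trunc D _).mp h3, zero_add]
    have h4 := norm_sq_trunc_add D (S x)
    rw [h2] at h4
    have h5 : S x - trunc D (T (trunc D x)) = T (x - trunc D x) := by rw [h1]; abel
    rw [h5] at h4
    have h6 : ‖trunc D (T (trunc D x))‖ ≤ 3 * ‖trunc D x‖ :=
      (norm_trunc_apply_le D _).trans (T.le_of_opNorm_le hTn _)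
    have h7 : ‖T (x - trunc D x)‖ ≤ 3 * ‖x - trunc D x‖ := T.le_of_opNorm_le hTn _
    have h8 := norm_sq_trunc_add D x
    rw [← sq_le_sq₀ (norm_nonneg _) (by positivity), h4]
    have h9 : ‖trunc D (T (trunc D x))‖ ^ 2 ≤ (3 * ‖trunc D x‖) ^ 2 := by gcongr
    have h10 : ‖T (x - trunc D x)‖ ^ 2 ≤ (3 * ‖x - trunc D x‖) ^ 2 := by gcongr
    nlinarith
  -- the value
  have hval : aeval S (p * g) (trunc D f) = e n := by
    rw [hSpol]
    obtain ⟨w, hw⟩ := hg
    have h1 : p * g = p - X ^ D * w * p := by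
      linear_combination -p * hw
    rw [h1, map_sub, sub_apply, map_sub, hp, map_mul, map_mul, map_pow, aeval_X]
    have h2 : Tail D (((T ^ D * aeval T w) * aeval T p) f) := by
      have := hT.pow D 0 ((aeval T w * aeval T p) f) (fun i hi => by omega)
      rw [zero_add] at this
      exact this
    rw [(tail_iff_trunc D _).mp h2, sub_zero]
  have h1 : aeval T (p * g) (trunc D f) - e n = (aeval T (p * g) - aeval S (p * g)) (trunc D f) := by
    rw [sub_apply, hval]
  rw [h1]
  have h2 : ‖aeval T (p * g) - aeval S (p * g)‖ ≤ N (p * g) * ε := by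
    refine (norm_aeval_sub_le T S hTn hSn3 _).trans ?_
    have h3 : T - S = T' - Tc := by rw [hS]; abel
    rw [h3]
    have := N_nonneg (p * g)
    gcongr
  refine (ContinuousLinearMap.le_of_opNorm_le _ h2 _).trans ?_
  have := N_nonneg (p * g)
  have := norm_trunc_apply_le D f
  gcongr

/-- the good polynomial on the tail -/
theorem tail_bound_poly {T : L2 →L[ℂ] L2} (hT : Strict T) (D : ℕ) {δ : ℝ} (hδ : 0 ≤ δ)
    (hc : ∀ x : L2, Tail D x → ‖x - T x‖ ≤ (1 + δ) * ‖x‖) (h : ℂ[X])
    (hh : ∀ S : L2 →L[ℂ] L2, ‖1 - S‖ ≤ 1 + δ → ‖aeval S h‖ ≤ 3) (x : L2) (hx : Tail D x) :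
    ‖aeval T h x‖ ≤ 3 * ‖x‖ := by
  set S : L2 →L[ℂ] L2 := T.comp (1 - trunc D) with hS
  have h1 : ‖1 - S‖ ≤ 1 + δ := by
    apply ContinuousLinearMap.opNorm_le_bound _ (by positivity)
    intro y
    have h2 : (1 - S) y = trunc D y + ((y - trunc D y) - T (y - trunc D y)) := by
      rw [hS]
      show y - T (y - trunc D y) = _
      abel
    have h3 : Tail D ((y - trunc D y) - T (y - trunc D y)) := by
      intro i hi
      rw [lp.coeFn_sub, Pi.sub_apply, tail_sub_trunc D y i hi,
        hT D _ (tail_sub_trunc D y) i (by omega), sub_zero]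
    have h4 := norm_sq_trunc_add D ((1 - S) y)
    have h5 : trunc D ((1 - S) y) = trunc D y := by
      rw [h2, map_add, trunc_trunc, (tail_iff_trunc D _).mp h3, add_zero]
    have h6 : (1 - S) y - trunc D y = (y - trunc D y) - T (y - trunc D y) := by
      rw [h2]; abel
    rw [h5, h6] at h4
    have h7 := hc _ (tail_sub_trunc D y)
    have h8 := norm_sq_trunc_add D y
    rw [← sq_le_sq₀ (norm_nonneg _) (by positivity), h4]
    have h9 : ‖(y - trunc D y) - T (y - trunc D y)‖ ^ 2 ≤ ((1 + δ) * ‖y - trunc D y‖) ^ 2 := by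
      gcongr
    have h10 : ‖trunc D y‖ ^ 2 ≤ (1 + δ) ^ 2 * ‖trunc D y‖ ^ 2 := by
      have : 1 ≤ (1 + δ) ^ 2 := by nlinarith
      exact le_mul_of_one_le_left (by positivity) this
    nlinarith
  have hpow : ∀ k, Tail D ((T ^ k) x) ∧ (S ^ k) x = (T ^ k) x := by
    intro k
    induction k with
    | zero => exact ⟨by simpa using hx, by simp⟩
    | succ k ih =>
      rw [pow_succ', pow_succ']
      refine ⟨fun i hi => hT D _ ih.1 i (by omega), ?_⟩
      show S ((S ^ k) x) = T ((T ^ k) x)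
      rw [ih.2, hS]
      show T ((T ^ k) x - trunc D ((T ^ k) x)) = _
      rw [(tail_iff_trunc D _).mp ih.1, sub_zero]
  have hpol : aeval S h x = aeval T h x := by
    rw [Polynomial.aeval_eq_sum_range, Polynomial.aeval_eq_sum_range, sum_apply, sum_apply]
    apply Finset.sum_congr rfl
    intro k _
    simp only [FunLike.coe_smul, Pi.smul_apply]
    rw [(hpow k).2]
  rw [← hpol]
  exact (aeval S h).le_of_opNorm_le (hh S h1) x

/-- first step -/
theorem step1 (D : ℕ) (hD : 1 ≤ D) (ω : ℝ) (hω : 0 < ω) :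
    ∃ ρ₀ ε₀ : ℝ, ρ₀ < 1 ∧ 0 < ε₀ ∧ ∀ P : Par, Below P.T D ω → (∀ i, D ≤ i → ρ₀ ≤ P.r i) →
      P.a (D - 1) ≤ ε₀ → Good P.T D := by
  obtain ⟨C₀, hC₀⟩ := solve D ω D hω (Nat.cast_nonneg D)
  obtain ⟨g, δ, hδ, hg, hgood⟩ := exists_good_poly L2 C₀ D
  set A : ℝ := (|C₀| * N g + 1) * 3 * D * D with hA
  have hDr : (1 : ℝ) ≤ D := by exact_mod_cast hD
  have hNg := N_nonneg g
  have hApos : 0 < A := by positivity
  refine ⟨(1 + δ)⁻¹, A⁻¹, inv_lt_one_of_one_lt₀ (by linarith), by positivity, ?_⟩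
  intro P hP1 hP2 hP3 n hn f hf hfn hfR
  obtain ⟨p, hp0, hpN, hp⟩ := hC₀ P.T P.norm_T_le P.strict hP1 n hn f hf hfn hfR
  refine ⟨p * g, ?_⟩
  have hsplit : aeval P.T (p * g) f - e n = (aeval P.T (p * g) (trunc D f) - e n) +
      aeval P.T (p * g) (f - trunc D f) := by
    rw [map_sub]; abel
  rw [hsplit]
  refine (norm_add_le _ _).trans (add_le_add ?_ ?_)
  · have hcut : ∀ x : L2, ‖P.T (trunc D x) - trunc D (P.T (trunc D x))‖ ≤
        (3 * P.a (D - 1)) * ‖x‖ := by
      intro x
      have h1 := P.link_bound (D - 1) (trunc D x) (fun i hi => by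
        rw [trunc_apply, if_neg (by omega)])
      rw [show D - 1 + 1 = D by omega] at h1
      refine h1.trans ?_
      have := norm_trunc_apply_le D x
      have := (P.ha (D - 1)).1
      gcongr
    have h2 := approx P.strict P.norm_T_le D hcut (by have := (P.ha (D - 1)).1; positivity) p g hg n f hp
    refine h2.trans ?_
    have h3 : N (p * g) ≤ |C₀| * N g := by
      refine (N_mul_le _ _).trans ?_
      gcongr
      exact hpN.trans (le_abs_self _)
    have h4 := (P.ha (D - 1)).1
    calc N (p * g) * (3 * P.a (D - 1)) * ‖f‖ ≤ (|C₀| * N g + 1) * (3 * A⁻¹) * D := by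
          have := N_nonneg (p * g)
          gcongr
          linarith
      _ = 1 / D := by
          rw [hA]
          have h5 : |C₀| * N g + 1 ≠ 0 := by positivity
          field_simp
  · apply tail_bound_poly P.strict D hδ.le _ _ _ _ (tail_sub_trunc D f)
    · intro x hx
      have := P.norm_sub_le_of_tail D (ρ := (1 + δ)⁻¹) (by positivity) hP2 x hx
      rwa [inv_inv] at this
    · intro S hS
      exact hgood S hS p hp0 hpN

end Pool.Agent.P8H72.Uni
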