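import Pool.Agent.P8H72.Uni.Calc

open Polynomial

namespace Pool.Agent.P8H72.Uni

/-- the Hilbert space of square summable sequences -/
abbrev L2 : Type := lp (fun _ : ℕ => ℂ) 2

theorem L2.norm_sq (f : L2) : ‖f‖ ^ 2 = ∑' i, ‖f i‖ ^ 2 := by
  have h := lp.norm_rpow_eq_tsum (p := 2) (by norm_num) f
  simpa using h

theorem L2.summable (f : L2) : Summable fun i => ‖f i‖ ^ 2 := by
  have h := (lp.memℓp f).summable (p := 2) (by norm_num)
  simpa using h

theorem L2.sum_le (f : L2) (s : Finset ℕ) : ∑ i ∈ s, ‖f i‖ ^ 2 ≤ ‖f‖ ^ 2 := by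
  rw [L2.norm_sq]
  exact (L2.summable f).sum_le_tsum s fun _ _ => by positivity

theorem L2.norm_apply_le (f : L2) (i : ℕ) : ‖f i‖ ≤ ‖f‖ := by
  have := L2.sum_le f {i}
  simp only [Finset.sum_singleton] at this
  exact (sq_le_sq₀ (norm_nonneg _) (norm_nonneg _)).mp this

theorem L2.norm_le (f : L2) {B : ℝ} (hB : 0 ≤ B)
    (h : ∀ n, ∑ i ∈ Finset.range n, ‖f i‖ ^ 2 ≤ B ^ 2) : ‖f‖ ≤ B := by
  rw [← sq_le_sq₀ (norm_nonneg _) hB, L2.norm_sq]
  exact Real.tsum_le_of_sum_range_le (fun _ => by positivity) h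

theorem memLp_of_bound (g : ℕ → ℂ) (B : ℝ) (h : ∀ n, ∑ i ∈ Finset.range n, ‖g i‖ ^ 2 ≤ B) :
    Memℓp g 2 := by
  apply memℓp_gen
  have : Summable fun i => ‖g i‖ ^ 2 :=
    summable_of_sum_range_le (fun _ => by positivity) h
  simpa using this

/-- sequences vanishing before `n` -/
def Tail (n : ℕ) (f : L2) : Prop := ∀ i < n, f i = 0

/-- truncation to the first `D` coordinates -/
noncomputable def trunc (D : ℕ) : L2 →L[ℂ] L2 :=
  LinearMap.mkContinuous
    { toFun := fun f => ⟨fun i => if i < D then f i else 0, by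
        apply memLp_of_bound _ (‖f‖ ^ 2)
        intro n
        refine le_trans (Finset.sum_le_sum fun i _ => ?_) (L2.sum_le f (Finset.range n))
        split_ifs
        · exact le_rfl
        · simp⟩
      map_add' := fun f g => by
        ext i
        simp only [lp.coeFn_add, Pi.add_apply]
        split_ifs <;> simp
      map_smul' := fun c f => by
        ext i
        simp only [lp.coeFn_smul, Pi.smul_apply, RingHom.id_apply]
        split_ifs <;> simp } 1 (fun f => by
      rw [one_mul]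
      apply L2.norm_le _ (norm_nonneg _)
      intro n
      refine le_trans (Finset.sum_le_sum fun i _ => ?_) (L2.sum_le f (Finset.range n))
      simp only [LinearMap.coe_mk, AddHom.coe_mk]
      split_ifs
      · exact le_rfl
      · simp)

theorem trunc_apply (D : ℕ) (f : L2) (i : ℕ) : trunc D f i = if i < D then f i else 0 := rfl

theorem norm_trunc_apply_le (D : ℕ) (f : L2) : ‖trunc D f‖ ≤ ‖f‖ := by
  apply L2.norm_le _ (norm_nonneg _)
  intro n
  refine le_trans (Finset.sum_le_sum fun i _ => ?_) (L2.sum_le f (Finset.range n))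
  rw [trunc_apply]
  split_ifs
  · exact le_rfl
  · simp

theorem norm_sub_trunc_le (D : ℕ) (f : L2) : ‖f - trunc D f‖ ≤ ‖f‖ := by
  apply L2.norm_le _ (norm_nonneg _)
  intro n
  refine le_trans (Finset.sum_le_sum fun i _ => ?_) (L2.sum_le f (Finset.range n))
  rw [lp.coeFn_sub, Pi.sub_apply, trunc_apply]
  split_ifs
  · simp
  · simp

theorem tail_sub_trunc (D : ℕ) (f : L2) : Tail D (f - trunc D f) := by
  intro i hi
  rw [lp.coeFn_sub, Pi.sub_apply, trunc_apply, if_pos hi, sub_self]

theorem tail_iff_trunc (D : ℕ) (f : L2) : Tail D f ↔ trunc D f = 0 := by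
  constructor
  · intro h
    ext i
    rw [trunc_apply]
    split_ifs with hi
    · simpa using h i hi
    · rfl
  · intro h i hi
    have := congrArg (fun g : L2 => g i) h
    simp only [trunc_apply, if_pos hi] at this
    simpa using this

theorem trunc_trunc (D : ℕ) (f : L2) : trunc D (trunc D f) = trunc D f := by
  ext i
  simp only [trunc_apply]
  split_ifs <;> rfl

theorem norm_sq_trunc_add (D : ℕ) (f : L2) : ‖f‖ ^ 2 = ‖trunc D f‖ ^ 2 + ‖f - trunc D f‖ ^ 2 := by
  rw [L2.norm_sq, L2.norm_sq, L2.norm_sq, ← (L2.summable _).tsum_add (L2.summable _)]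
  congr 1
  ext i
  rw [lp.coeFn_sub, Pi.sub_apply, trunc_apply]
  split_ifs <;> simp

theorem tendsto_trunc (f : L2) : Filter.Tendsto (fun D => ‖f - trunc D f‖) Filter.atTop (nhds 0) := by
  have h1 : ∀ D, ‖f - trunc D f‖ ^ 2 = ‖f‖ ^ 2 - ∑ i ∈ Finset.range D, ‖f i‖ ^ 2 := by
    intro D
    have h2 : ‖trunc D f‖ ^ 2 = ∑ i ∈ Finset.range D, ‖f i‖ ^ 2 := by
      rw [L2.norm_sq, tsum_eq_sum (s := Finset.range D)]
      · apply Finset.sum_congr rfl
        intro i hi
        rw [trunc_apply, if_pos (Finset.mem_range.mp hi)]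
      · intro i hi
        rw [Finset.mem_range] at hi
        rw [trunc_apply, if_neg hi]
        simp
    have := norm_sq_trunc_add D f
    linarith
  have h3 : Filter.Tendsto (fun D => ‖f - trunc D f‖ ^ 2) Filter.atTop (nhds 0) := by
    simp_rw [h1]
    have := (L2.summable f).hasSum.tendsto_sum_nat
    rw [← L2.norm_sq] at this
    have h5 := this.const_sub (‖f‖ ^ 2)
    rwa [sub_self] at h5
  have h4 := h3.sqrt
  simpa using h4

/-- basis vectors -/
noncomputable def e (n : ℕ) : L2 := lp.single 2 n (1 : ℂ)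

theorem e_apply (n i : ℕ) : e n i = if i = n then 1 else 0 := by
  unfold e
  rw [lp.single_apply]
  by_cases h : i = n
  · subst h; simp
  · simp [h]

theorem tail_e (n : ℕ) : Tail n (e n) := by
  intro i hi
  rw [e_apply, if_neg hi.ne]

theorem e_self (n : ℕ) : e n n = 1 := by simp [e_apply]

/-- a sequence vanishing before `n` lies in every closed subspace containing `e m`, `m ≥ n` -/
theorem mem_of_tail (M : Submodule ℂ L2) (hM : IsClosed (M : Set L2)) (n : ℕ)
    (h : ∀ m, n ≤ m → e m ∈ M) (f : L2) (hf : Tail n f) : f ∈ M := by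
  have h1 : Filter.Tendsto (fun D => trunc D f) Filter.atTop (nhds f) := by
    rw [tendsto_iff_norm_sub_tendsto_zero]
    have := tendsto_trunc f
    simpa [norm_sub_rev] using this
  refine hM.mem_of_tendsto h1 (Filter.Eventually.of_forall fun D => ?_)
  have h2 : trunc D f = ∑ i ∈ Finset.range D, f i • e i := by
    ext k
    rw [trunc_apply, lp.coeFn_sum, Finset.sum_apply]
    simp only [lp.coeFn_smul, Pi.smul_apply, smul_eq_mul, e_apply, mul_ite, mul_one, mul_zero]
    rw [Finset.sum_ite_eq]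
    simp
  show trunc D f ∈ M
  rw [h2]
  apply Submodule.sum_mem
  intro i _
  by_cases hi : n ≤ i
  · exact M.smul_mem _ (h i hi)
  · rw [hf i (by omega)]
    simp

end Pool.Agent.P8H72.Uni
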