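import Pool.Agent.P8H72.Uni.Solve

open Polynomial

namespace Pool.Agent.P8H72.Uni

/-- parameters of the construction -/
structure Par where
  /-- the numbers `r i` -/
  r : ℕ → ℝ
  /-- the numbers `a i` -/
  a : ℕ → ℝ
  hr : ∀ i, 9 / 10 ≤ r i ∧ r i < 1
  ha : ∀ i, 0 < a i ∧ a i ≤ 1

namespace Par

variable (P : Par)

/-- `q i = √(1 - r i ^ 2)` -/
noncomputable def q (i : ℕ) : ℝ := Real.sqrt (1 - P.r i ^ 2)

theorem q_sq (i : ℕ) : P.q i ^ 2 = 1 - P.r i ^ 2 := by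
  unfold q
  rw [Real.sq_sqrt]
  have := P.hr i
  nlinarith

theorem q_pos (i : ℕ) : 0 < P.q i := by
  unfold q
  apply Real.sqrt_pos.mpr
  have := P.hr i
  nlinarith

/-- the state -/
noncomputable def st (x : ℕ → ℂ) : ℕ → ℂ
  | 0 => 0
  | i + 1 => (P.a i : ℂ) * ((P.r i : ℂ) * st x i + (P.q i : ℂ) * x i)

/-- the output -/
noncomputable def z (x : ℕ → ℂ) (i : ℕ) : ℂ := (P.r i : ℂ) * x i - (P.q i : ℂ) * P.st x i

theorem energy_step (r q : ℝ) (h : q ^ 2 = 1 - r ^ 2) (s x : ℂ) :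
    ‖(r : ℂ) * s + (q : ℂ) * x‖ ^ 2 + ‖(r : ℂ) * x - (q : ℂ) * s‖ ^ 2 = ‖s‖ ^ 2 + ‖x‖ ^ 2 := by
  rw [← Complex.normSq_eq_norm_sq, ← Complex.normSq_eq_norm_sq, ← Complex.normSq_eq_norm_sq,
    ← Complex.normSq_eq_norm_sq]
  simp only [Complex.normSq_apply, Complex.add_re, Complex.mul_re, Complex.ofReal_re,
    Complex.ofReal_im, Complex.add_im, Complex.mul_im, Complex.sub_re, Complex.sub_im]
  linear_combination (s.re ^ 2 + s.im ^ 2 + x.re ^ 2 + x.im ^ 2) * h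

theorem step_le (x : ℕ → ℂ) (i : ℕ) :
    ‖P.st x (i + 1)‖ ^ 2 + ‖P.z x i‖ ^ 2 ≤ ‖P.st x i‖ ^ 2 + ‖x i‖ ^ 2 := by
  have h1 := energy_step (P.r i) (P.q i) (P.q_sq i) (P.st x i) (x i)
  rw [← h1]
  have h2 : ‖P.st x (i + 1)‖ ≤ ‖(P.r i : ℂ) * P.st x i + (P.q i : ℂ) * x i‖ := by
    show ‖(P.a i : ℂ) * ((P.r i : ℂ) * P.st x i + (P.q i : ℂ) * x i)‖ ≤ _
    rw [norm_mul, Complex.norm_real, Real.norm_of_nonneg (P.ha i).1.le]
    exact mul_le_of_le_one_left (norm_nonneg _) (P.ha i).2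
  unfold z
  gcongr

theorem energy (x : ℕ → ℂ) (D n : ℕ) (h : D ≤ n) :
    ‖P.st x n‖ ^ 2 + ∑ i ∈ Finset.Ico D n, ‖P.z x i‖ ^ 2 ≤
      ‖P.st x D‖ ^ 2 + ∑ i ∈ Finset.Ico D n, ‖x i‖ ^ 2 := by
  induction n, h using Nat.le_induction with
  | base => simp
  | succ n hn ih =>
    rw [Finset.sum_Ico_succ_top hn, Finset.sum_Ico_succ_top hn]
    have := P.step_le x n
    linarith

theorem st_zero (x : ℕ → ℂ) : P.st x 0 = 0 := rfl

theorem st_succ (x : ℕ → ℂ) (i : ℕ) :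
    P.st x (i + 1) = (P.a i : ℂ) * ((P.r i : ℂ) * P.st x i + (P.q i : ℂ) * x i) := rfl

theorem st_add (x y : ℕ → ℂ) (i : ℕ) : P.st (x + y) i = P.st x i + P.st y i := by
  induction i with
  | zero => simp [st]
  | succ i ih =>
    simp only [st_succ, ih, Pi.add_apply]
    ring

theorem st_smul (c : ℂ) (x : ℕ → ℂ) (i : ℕ) : P.st (c • x) i = c * P.st x i := by
  induction i with
  | zero => simp [st]
  | succ i ih =>
    simp only [st_succ, ih, Pi.smul_apply, smul_eq_mul]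
    ring

theorem st_tail (x : ℕ → ℂ) (n : ℕ) (h : ∀ i < n, x i = 0) : ∀ i ≤ n, P.st x i = 0 := by
  intro i
  induction i with
  | zero => intro _; rfl
  | succ i ih =>
    intro hi
    rw [st_succ, ih (by omega), h i (by omega)]
    simp

theorem z_sum_le (x : L2) (n : ℕ) : ∑ i ∈ Finset.range n, ‖P.z x i‖ ^ 2 ≤ ‖x‖ ^ 2 := by
  have h1 := P.energy x 0 n (Nat.zero_le _)
  rw [st_zero, norm_zero] at h1
  have h2 := L2.sum_le x (Finset.range n)
  rw [Finset.range_eq_Ico] at h2 ⊢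
  have h3 : 0 ≤ ‖P.st x n‖ ^ 2 := by positivity
  linarith

theorem st_norm_le (x : L2) (n : ℕ) : ‖P.st x n‖ ≤ ‖x‖ := by
  have h1 := P.energy x 0 n (Nat.zero_le _)
  rw [st_zero, norm_zero] at h1
  have h2 := L2.sum_le x (Finset.range n)
  rw [Finset.range_eq_Ico] at h2
  have h3 : 0 ≤ ∑ i ∈ Finset.Ico 0 n, ‖P.z x i‖ ^ 2 := Finset.sum_nonneg fun _ _ => by positivity
  rw [← sq_le_sq₀ (norm_nonneg _) (norm_nonneg _)]
  linarith

/-- the sequence `x - T x` -/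
noncomputable def c (x : ℕ → ℂ) (i : ℕ) : ℂ := x i - ((P.q i / P.r i : ℝ) : ℂ) * P.st x i

theorem c_eq (x : ℕ → ℂ) (i : ℕ) : P.c x i = ((P.r i)⁻¹ : ℝ) * P.z x i := by
  unfold c z
  have h : (P.r i : ℂ) ≠ 0 := by
    have := (P.hr i).1
    exact_mod_cast (by linarith : (P.r i) ≠ 0)
  push_cast
  field_simp

theorem norm_c_le (x : ℕ → ℂ) (i : ℕ) {ρ : ℝ} (hρ : 0 < ρ) (h : ρ ≤ P.r i) :
    ‖P.c x i‖ ^ 2 ≤ (ρ⁻¹) ^ 2 * ‖P.z x i‖ ^ 2 := by
  have h1 := (P.hr i).1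
  have h2 : 0 ≤ (P.r i)⁻¹ := inv_nonneg.mpr (by linarith)
  rw [c_eq, norm_mul, mul_pow, Complex.norm_real, Real.norm_of_nonneg h2]
  gcongr

/-- the operator `1 - T` -/
noncomputable def Cop : L2 →L[ℂ] L2 :=
  LinearMap.mkContinuous
    { toFun := fun x => ⟨P.c x, by
        apply memLp_of_bound _ ((((9 : ℝ) / 10)⁻¹) ^ 2 * ‖x‖ ^ 2)
        intro n
        refine le_trans (Finset.sum_le_sum fun i _ =>
          P.norm_c_le x i (ρ := 9 / 10) (by norm_num) (P.hr i).1) ?_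
        rw [← Finset.mul_sum]
        gcongr
        exact P.z_sum_le x n⟩
      map_add' := fun x y => by
        ext i
        simp only [lp.coeFn_add, Pi.add_apply]
        show P.c (⇑x + ⇑y) i = P.c x i + P.c y i
        unfold c
        rw [st_add]
        simp only [Pi.add_apply]
        ring
      map_smul' := fun a x => by
        ext i
        simp only [lp.coeFn_smul, Pi.smul_apply, RingHom.id_apply, smul_eq_mul]
        show P.c (a • ⇑x) i = a * P.c x i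
        unfold c
        rw [st_smul]
        simp only [Pi.smul_apply, smul_eq_mul]
        ring } (10 / 9) (fun x => by
      apply L2.norm_le _ (by positivity)
      intro n
      refine le_trans (Finset.sum_le_sum fun i _ =>
          P.norm_c_le x i (ρ := 9 / 10) (by norm_num) (P.hr i).1) ?_
      rw [← Finset.mul_sum, mul_pow]
      have := P.z_sum_le x n
      have h : ((9 : ℝ) / 10)⁻¹ = 10 / 9 := by norm_num
      rw [h]
      gcongr)

theorem Cop_apply (x : L2) (i : ℕ) : P.Cop x i = P.c x i := rfl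

/-- the operator -/
noncomputable def T : L2 →L[ℂ] L2 := 1 - P.Cop

theorem T_apply (x : L2) (i : ℕ) : P.T x i = ((P.q i / P.r i : ℝ) : ℂ) * P.st x i := by
  have : P.T x = x - P.Cop x := rfl
  rw [this, lp.coeFn_sub, Pi.sub_apply, Cop_apply, c]
  ring

theorem norm_Cop_le : ‖P.Cop‖ ≤ 10 / 9 := LinearMap.mkContinuous_norm_le _ (by norm_num) _

theorem norm_T_le : ‖P.T‖ ≤ 3 := by
  have h1 : ‖(1 : L2 →L[ℂ] L2)‖ ≤ 1 := ContinuousLinearMap.norm_id_le
  have h2 : ‖P.T‖ ≤ ‖(1 : L2 →L[ℂ] L2)‖ + ‖P.Cop‖ := norm_sub_le _ _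
  have := P.norm_Cop_le
  linarith

theorem strict : Strict P.T := by
  intro n f hf i hi
  rw [T_apply, P.st_tail f n hf i (by omega), mul_zero]

theorem T_succ (n : ℕ) (f : L2) (hf : Tail n f) :
    P.T f (n + 1) = ((P.q (n + 1) / P.r (n + 1) * (P.a n * P.q n) : ℝ) : ℂ) * f n := by
  rw [T_apply, st_succ, P.st_tail f n hf n le_rfl]
  push_cast
  ring

theorem norm_sub_le_of_tail (D : ℕ) {ρ : ℝ} (hρ : 0 < ρ) (h : ∀ i, D ≤ i → ρ ≤ P.r i) (f : L2)
    (hf : Tail D f) : ‖f - P.T f‖ ≤ ρ⁻¹ * ‖f‖ := by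
  have h0 : f - P.T f = P.Cop f := by
    have : P.T f = f - P.Cop f := rfl
    rw [this]; abel
  rw [h0]
  refine L2.norm_le _ (B := ρ⁻¹ * ‖f‖) (by positivity) ?_
  intro n
  have : ∀ i ∈ Finset.range n, ‖P.Cop f i‖ ^ 2 ≤ (ρ⁻¹) ^ 2 * ‖P.z f i‖ ^ 2 := by
    intro i _
    rw [Cop_apply]
    by_cases hi : D ≤ i
    · exact P.norm_c_le f i hρ (h i hi)
    · rw [not_le] at hi
      have h1 : P.c f i = 0 := by
        unfold c
        rw [hf i hi, P.st_tail f D hf i hi.le]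
        simp
      rw [h1, norm_zero, zero_pow two_ne_zero]
      positivity
  refine (Finset.sum_le_sum this).trans ?_
  rw [← Finset.mul_sum, mul_pow]
  gcongr
  exact P.z_sum_le f n

/-- energy estimate after the support -/
theorem tail_bound (D : ℕ) (x : L2) (hx : ∀ i, D ≤ i → x i = 0) (n : ℕ) :
    ∑ i ∈ Finset.Ico D n, ‖P.T x i‖ ^ 2 ≤ (10 / 9) ^ 2 * ‖P.st x D‖ ^ 2 := by
  rcases le_total D n with h | h
  · have h1 := P.energy x D n h
    have h2 : ∑ i ∈ Finset.Ico D n, ‖x i‖ ^ 2 = 0 := by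
      apply Finset.sum_eq_zero
      intro i hi
      rw [hx i (Finset.mem_Ico.mp hi).1]
      simp
    have h3 : ∀ i ∈ Finset.Ico D n, ‖P.T x i‖ ^ 2 ≤ (10 / 9) ^ 2 * ‖P.z x i‖ ^ 2 := by
      intro i hi
      have h4 : P.T x i = - P.c x i := by
        rw [T_apply]
        unfold c
        rw [hx i (Finset.mem_Ico.mp hi).1]
        ring
      rw [h4, norm_neg]
      have := P.norm_c_le x i (ρ := 9 / 10) (by norm_num) (P.hr i).1
      have h : ((9 : ℝ) / 10)⁻¹ = 10 / 9 := by norm_num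
      rwa [h] at this
    refine (Finset.sum_le_sum h3).trans ?_
    rw [← Finset.mul_sum]
    gcongr
    have : 0 ≤ ‖P.st x n‖ ^ 2 := by positivity
    linarith
  · rw [Finset.Ico_eq_empty (by omega)]
    simp only [Finset.sum_empty]
    positivity

theorem link_bound (D : ℕ) (x : L2) (hx : ∀ i, D + 1 ≤ i → x i = 0) :
    ‖P.T x - trunc (D + 1) (P.T x)‖ ≤ 3 * P.a D * ‖x‖ := by
  have ha := P.ha D
  refine L2.norm_le _ (B := 3 * P.a D * ‖x‖)
    (mul_nonneg (mul_nonneg (by norm_num) ha.1.le) (norm_nonneg _)) ?_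
  intro n
  have h1 : ∑ i ∈ Finset.range n, ‖(P.T x - trunc (D + 1) (P.T x)) i‖ ^ 2 =
      ∑ i ∈ (Finset.range n).filter (fun i => D + 1 ≤ i), ‖P.T x i‖ ^ 2 := by
    rw [Finset.sum_filter]
    apply Finset.sum_congr rfl
    intro i _
    rw [lp.coeFn_sub, Pi.sub_apply, trunc_apply]
    split_ifs with h1 h2 h2
    · omega
    · simp
    · simp
    · omega
  have h2 : (Finset.range n).filter (fun i => D + 1 ≤ i) = Finset.Ico (D + 1) n := by
    ext i
    simp only [Finset.mem_filter, Finset.mem_range, Finset.mem_Ico]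
    omega
  rw [h1, h2]
  refine (P.tail_bound (D + 1) x hx n).trans ?_
  have h3 : ‖P.st x (D + 1)‖ ≤ P.a D * (2 * ‖x‖) := by
    rw [st_succ, norm_mul, Complex.norm_real, Real.norm_of_nonneg ha.1.le]
    have h4 := P.hr D
    have h5 : P.q D ≤ 1 := by
      have := P.q_sq D
      have := P.q_pos D
      nlinarith
    have h6 : ‖(P.r D : ℂ) * P.st x D + (P.q D : ℂ) * x D‖ ≤ 2 * ‖x‖ := by
      refine (norm_add_le _ _).trans ?_
      rw [norm_mul, norm_mul, Complex.norm_real, Complex.norm_real,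
        Real.norm_of_nonneg (by linarith), Real.norm_of_nonneg (P.q_pos D).le]
      have h7 := P.st_norm_le x D
      have h8 := L2.norm_apply_le x D
      have h9 : P.r D * ‖P.st x D‖ ≤ 1 * ‖x‖ := by
        gcongr
        exact h4.2.le
      have h10 : P.q D * ‖x D‖ ≤ 1 * ‖x‖ := by gcongr
      linarith
    exact mul_le_mul_of_nonneg_left h6 ha.1.le
  calc (10 / 9) ^ 2 * ‖P.st x (D + 1)‖ ^ 2 ≤ (10 / 9) ^ 2 * (P.a D * (2 * ‖x‖)) ^ 2 := by gcongr
    _ = (20 / 9) ^ 2 * (P.a D * ‖x‖) ^ 2 := by ring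
    _ ≤ 3 ^ 2 * (P.a D * ‖x‖) ^ 2 := by gcongr; norm_num
    _ = (3 * P.a D * ‖x‖) ^ 2 := by ring

end Par

end Pool.Agent.P8H72.Uni
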