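import Mathlib

open Polynomial

namespace Pool.Agent.P8H72.Uni

/-- weighted coefficient norm of a polynomial -/
noncomputable def N (p : ℂ[X]) : ℝ := ∑ k ∈ p.support, ‖p.coeff k‖ * 4 ^ k

theorem N_eq_of_subset (p : ℂ[X]) (s : Finset ℕ) (h : p.support ⊆ s) :
    N p = ∑ k ∈ s, ‖p.coeff k‖ * 4 ^ k := by
  unfold N
  apply Finset.sum_subset h
  intro k _ hk
  simp [Polynomial.notMem_support_iff.mp hk]

theorem N_nonneg (p : ℂ[X]) : 0 ≤ N p :=
  Finset.sum_nonneg fun _ _ => by positivity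

theorem N_add_le (p q : ℂ[X]) : N (p + q) ≤ N p + N q := by
  classical
  rw [N_eq_of_subset (p + q) (p.support ∪ q.support) Polynomial.support_add,
    N_eq_of_subset p (p.support ∪ q.support) Finset.subset_union_left,
    N_eq_of_subset q (p.support ∪ q.support) Finset.subset_union_right,
    ← Finset.sum_add_distrib]
  apply Finset.sum_le_sum
  intro k _
  rw [Polynomial.coeff_add, ← add_mul]
  gcongr
  exact norm_add_le _ _

theorem N_zero : N 0 = 0 := by simp [N]

theorem N_monomial (k : ℕ) (a : ℂ) : N (monomial k a) = ‖a‖ * 4 ^ k := by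
  rw [N_eq_of_subset _ {k} (Polynomial.support_monomial_subset k a)]
  simp

theorem N_sum_le {ι : Type*} (s : Finset ι) (f : ι → ℂ[X]) : N (∑ i ∈ s, f i) ≤ ∑ i ∈ s, N (f i) := by
  classical
  induction s using Finset.induction_on with
  | empty => simp [N_zero]
  | insert a s ha ih =>
    rw [Finset.sum_insert ha, Finset.sum_insert ha]
    exact (N_add_le _ _).trans (by linarith)

theorem N_mul_le (p q : ℂ[X]) : N (p * q) ≤ N p * N q := by
  have h : p * q = ∑ i ∈ p.support, ∑ j ∈ q.support, monomial (i + j) (p.coeff i * q.coeff j) := by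
    rw [Polynomial.mul_eq_sum_sum]
    rfl
  rw [h]
  refine (N_sum_le _ _).trans ?_
  unfold N
  rw [Finset.sum_mul]
  apply Finset.sum_le_sum
  intro i _
  refine (N_sum_le _ _).trans ?_
  rw [Finset.mul_sum]
  apply Finset.sum_le_sum
  intro j _
  rw [N_monomial, norm_mul, pow_add]
  apply le_of_eq
  ring

theorem N_one : N 1 = 1 := by
  have := N_monomial 0 1
  simpa using this

theorem N_C (a : ℂ) : N (C a) = ‖a‖ := by
  have := N_monomial 0 a
  simpa using this

theorem N_X_pow (k : ℕ) : N (X ^ k) = 4 ^ k := by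
  have := N_monomial k 1
  rw [Polynomial.monomial_one_right_eq_X_pow] at this
  simpa using this

theorem N_divX_le (p : ℂ[X]) : N p.divX ≤ N p := by
  rw [N_eq_of_subset p.divX (Finset.range (p.natDegree + 1)) ?_,
    N_eq_of_subset p (Finset.range (p.natDegree + 2)) ?_, Finset.sum_range_succ' _ (p.natDegree + 1)]
  · have : ∑ k ∈ Finset.range (p.natDegree + 1), ‖p.divX.coeff k‖ * 4 ^ k ≤
        ∑ k ∈ Finset.range (p.natDegree + 1), ‖p.coeff (k + 1)‖ * 4 ^ (k + 1) := by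
      apply Finset.sum_le_sum
      intro k _
      rw [Polynomial.coeff_divX, pow_succ]
      have h1 : (0 : ℝ) ≤ ‖p.coeff (k + 1)‖ * 4 ^ k := by positivity
      linarith
    have h2 : (0 : ℝ) ≤ ‖p.coeff 0‖ * 4 ^ 0 := by positivity
    linarith
  · intro k hk
    rw [Finset.mem_range]
    have := Polynomial.le_natDegree_of_mem_supp k hk
    omega
  · intro k hk
    rw [Finset.mem_range]
    have h1 := Polynomial.le_natDegree_of_mem_supp k hk
    have h2 := Polynomial.natDegree_divX_eq_natDegree_tsub_one (p := p)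
    omega

variable {E : Type*} [NormedAddCommGroup E] [NormedSpace ℂ E]

theorem norm_pow_le_four (T : E →L[ℂ] E) (hT : ‖T‖ ≤ 4) (k : ℕ) : ‖T ^ k‖ ≤ 4 ^ k := by
  induction k with
  | zero => rw [pow_zero, pow_zero]; exact ContinuousLinearMap.norm_id_le
  | succ k ih =>
    rw [pow_succ, pow_succ]
    exact (norm_mul_le _ _).trans (by gcongr)

theorem norm_pow_le_three (T : E →L[ℂ] E) (hT : ‖T‖ ≤ 3) (k : ℕ) : ‖T ^ k‖ ≤ 3 ^ k := by
  induction k with
  | zero => rw [pow_zero, pow_zero]; exact ContinuousLinearMap.norm_id_le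
  | succ k ih =>
    rw [pow_succ, pow_succ]
    exact (norm_mul_le _ _).trans (by gcongr)

theorem norm_pow_sub_le (S T : E →L[ℂ] E) (hS : ‖S‖ ≤ 3) (hT : ‖T‖ ≤ 3) (k : ℕ) :
    ‖S ^ k - T ^ k‖ ≤ (4 ^ k - 3 ^ k) * ‖S - T‖ := by
  induction k with
  | zero => simp
  | succ k ih =>
    have h : S ^ (k + 1) - T ^ (k + 1) = (S ^ k - T ^ k) * S + T ^ k * (S - T) := by
      rw [pow_succ, pow_succ, sub_mul, mul_sub]
      abel
    rw [h]
    have h1 : ‖(S ^ k - T ^ k) * S‖ ≤ ((4 ^ k - 3 ^ k) * ‖S - T‖) * 3 := by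
      refine (norm_mul_le _ _).trans ?_
      have h3 : (0 : ℝ) ≤ (4 ^ k - 3 ^ k) * ‖S - T‖ := (norm_nonneg _).trans ih
      gcongr
    have h2 : ‖T ^ k * (S - T)‖ ≤ 3 ^ k * ‖S - T‖ := by
      refine (norm_mul_le _ _).trans ?_
      gcongr
      exact norm_pow_le_three T hT k
    have h4 : (3 : ℝ) ^ k ≤ 4 ^ k := by gcongr; norm_num
    calc ‖(S ^ k - T ^ k) * S + T ^ k * (S - T)‖ ≤ ((4 ^ k - 3 ^ k) * ‖S - T‖) * 3 + 3 ^ k * ‖S - T‖ :=
          (norm_add_le _ _).trans (add_le_add h1 h2)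
      _ ≤ (4 ^ (k + 1) - 3 ^ (k + 1)) * ‖S - T‖ := by
          have h5 : (4 : ℝ) ^ (k + 1) - 3 ^ (k + 1) - ((4 ^ k - 3 ^ k) * 3 + 3 ^ k) = 4 ^ k - 3 ^ k := by
            ring
          have h6 : 0 ≤ (4 ^ k - 3 ^ k) * ‖S - T‖ := mul_nonneg (by linarith) (norm_nonneg _)
          nlinarith [norm_nonneg (S - T)]

theorem norm_aeval_le (T : E →L[ℂ] E) (hT : ‖T‖ ≤ 4) (p : ℂ[X]) : ‖aeval T p‖ ≤ N p := by
  rw [Polynomial.aeval_eq_sum_range, N_eq_of_subset p (Finset.range (p.natDegree + 1)) ?_]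
  · refine (norm_sum_le _ _).trans (Finset.sum_le_sum fun k _ => ?_)
    rw [norm_smul]
    gcongr
    exact norm_pow_le_four T hT k
  · intro k hk
    rw [Finset.mem_range]
    have := Polynomial.le_natDegree_of_mem_supp k hk
    omega

theorem norm_aeval_sub_le (S T : E →L[ℂ] E) (hS : ‖S‖ ≤ 3) (hT : ‖T‖ ≤ 3) (p : ℂ[X]) :
    ‖aeval S p - aeval T p‖ ≤ N p * ‖S - T‖ := by
  rw [Polynomial.aeval_eq_sum_range, Polynomial.aeval_eq_sum_range,
    N_eq_of_subset p (Finset.range (p.natDegree + 1)) ?_, ← Finset.sum_sub_distrib, Finset.sum_mul]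
  · refine (norm_sum_le _ _).trans (Finset.sum_le_sum fun k _ => ?_)
    rw [← smul_sub, norm_smul, mul_assoc]
    gcongr
    refine (norm_pow_sub_le S T hS hT k).trans ?_
    have : (0 : ℝ) ≤ 3 ^ k := by positivity
    gcongr
    linarith
  · intro k hk
    rw [Finset.mem_range]
    have := Polynomial.le_natDegree_of_mem_supp k hk
    omega

end Pool.Agent.P8H72.Uni
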