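import Pool.Agent.P8H72.Uni.Eig

open Polynomial

namespace Pool.Agent.P8H72.Uni

/-- stages of the recursion -/
structure Stage where
  /-- the current length -/
  D : ℕ
  /-- the parameters (only the first `D` matter) -/
  P : Par
  /-- lower bound for the later `r i` -/
  ρ : ℝ
  /-- upper bound for the next link -/
  ε : ℝ
  hD : 1 ≤ D
  hρ : ρ < 1
  hε : 0 < ε

/-- agreement of parameters on a prefix -/
def Agree (D : ℕ) (P Q : Par) : Prop := (∀ i < D, P.r i = Q.r i) ∧ ∀ i, i + 1 < D → P.a i = Q.a i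

/-- what one stage achieves -/
def Achieve (s s' : Stage) : Prop :=
  s.D < s'.D ∧ s.ρ ≤ s'.ρ ∧ Agree s.D s'.P s.P ∧ (∀ i, s.D ≤ i → i < s'.D → s.ρ ≤ s'.P.r i) ∧
    s'.P.a (s.D - 1) ≤ s.ε ∧
    ∀ P : Par, Agree s'.D P s'.P → (∀ i, s'.D ≤ i → s'.ρ ≤ P.r i) → P.a (s'.D - 1) ≤ s'.ε →
      Good P.T s.D ∧ ∃ x : L2, ‖x‖ = 1 ∧ ‖P.T x - (2 : ℂ) • x‖ ≤ 1 / s.D

/-- a lower bound for the subdiagonal depending only on the prefix -/
theorem exists_omega (D : ℕ) (P : Par) : ∃ ω : ℝ, 0 < ω ∧ ∀ Q : Par, Agree D Q P → Below Q.T D ω := by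
  have h1 : ∃ ω : ℝ, 0 < ω ∧ ∀ n, n + 1 < D → ω ≤ P.q (n + 1) / P.r (n + 1) * (P.a n * P.q n) := by
    have hpos : ∀ n, 0 < P.q (n + 1) / P.r (n + 1) * (P.a n * P.q n) := by
      intro n
      have := P.q_pos n
      have := P.q_pos (n + 1)
      have := (P.ha n).1
      have := (P.hr (n + 1)).1
      have h : 0 < P.r (n + 1) := by linarith
      positivity
    rcases Nat.eq_zero_or_pos D with h | h
    · exact ⟨1, one_pos, fun n hn => by omega⟩
    · obtain ⟨m, _, hm⟩ := Finset.exists_min_image (Finset.range D)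
        (fun n => P.q (n + 1) / P.r (n + 1) * (P.a n * P.q n)) ⟨0, Finset.mem_range.mpr h⟩
      exact ⟨_, hpos m, fun n hn => hm n (Finset.mem_range.mpr (by omega))⟩
  obtain ⟨ω, hω, h⟩ := h1
  refine ⟨ω, hω, fun Q hQ n f hn hf => ?_⟩
  rw [Q.T_succ n f hf, norm_mul, Complex.norm_real]
  have e1 : Q.q (n + 1) = P.q (n + 1) := by unfold Par.q; rw [hQ.1 (n + 1) hn]
  have e2 : Q.q n = P.q n := by unfold Par.q; rw [hQ.1 n (by omega)]
  rw [e1, e2, hQ.1 (n + 1) hn, hQ.2 n hn]
  gcongr
  exact (h n hn).trans (le_abs_self _)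

theorem exists_next (s : Stage) : ∃ s' : Stage, Achieve s s' := by
  obtain ⟨ω, hω, hB⟩ := exists_omega s.D s.P
  obtain ⟨ρ₀, ε₀, hρ₀, hε₀, h1⟩ := step1 s.D s.hD ω hω
  have hDpos : (0 : ℝ) < s.D := by exact_mod_cast s.hD
  obtain ⟨ρ, d, ε₁, hρ1, hρ2, hρ3, hd, hε₁, h2⟩ := eig s.D (max ρ₀ s.ρ) (1 / s.D)
    (max_lt hρ₀ s.hρ) (by positivity)
  set P' : Par :=
    { r := fun i => if i < s.D then s.P.r i else ρ
      a := fun i => if i + 1 < s.D then s.P.a i else if i + 1 = s.D then min ε₀ (min s.ε 1) else 1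
      hr := fun i => by
        split_ifs
        · exact s.P.hr i
        · exact ⟨hρ2, hρ3⟩
      ha := fun i => by
        split_ifs
        · exact s.P.ha i
        · exact ⟨lt_min hε₀ (lt_min s.hε one_pos), (min_le_right _ _).trans (min_le_right _ _)⟩
        · exact ⟨one_pos, le_rfl⟩ } with hP'
  have hr' : ∀ i, P'.r i = if i < s.D then s.P.r i else ρ := fun i => rfl
  have ha' : ∀ i, P'.a i = if i + 1 < s.D then s.P.a i else
    if i + 1 = s.D then min ε₀ (min s.ε 1) else 1 := fun i => rfl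
  have hsD := s.hD
  refine ⟨⟨s.D + d, P', ρ, ε₁, by omega, hρ3, hε₁⟩, ?_, ?_, ?_, ?_, ?_, ?_⟩
  · show s.D < s.D + d
    omega
  · exact (le_max_right _ _).trans hρ1
  · refine ⟨fun i hi => ?_, fun i hi => ?_⟩
    · show P'.r i = _
      rw [hr', if_pos hi]
    · show P'.a i = _
      rw [ha', if_pos hi]
  · intro i hi _
    show s.ρ ≤ P'.r i
    rw [hr', if_neg (by omega)]
    exact (le_max_right _ _).trans hρ1
  · show P'.a (s.D - 1) ≤ s.ε
    rw [ha', if_neg (by omega), if_pos (by omega)]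
    exact (min_le_right _ _).trans (min_le_left _ _)
  · intro P hP1 hP2 hP3
    change Agree (s.D + d) P P' at hP1
    change ∀ i, s.D + d ≤ i → ρ ≤ P.r i at hP2
    change P.a (s.D + d - 1) ≤ ε₁ at hP3
    constructor
    · apply h1 P
      · apply hB
        refine ⟨fun i hi => ?_, fun i hi => ?_⟩
        · rw [hP1.1 i (by omega), hr', if_pos hi]
        · rw [hP1.2 i (by omega), ha', if_pos hi]
      · intro i hi
        have h3 : ρ₀ ≤ ρ := (le_max_left _ _).trans hρ1
        by_cases h : i < s.D + d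
        · rw [hP1.1 i h, hr', if_neg (by omega)]
          exact h3
        · exact h3.trans (hP2 i (by omega))
      · rw [hP1.2 (s.D - 1) (by omega), ha', if_neg (by omega), if_pos (by omega)]
        exact min_le_left _ _
    · apply h2 P
      · intro i hi1 hi2
        rw [hP1.1 i hi2, hr', if_neg (by omega)]
      · intro i hi1 hi2
        rw [hP1.2 i hi2, ha', if_neg (by omega), if_neg (by omega)]
      · exact hP3

/-- the next stage -/
noncomputable def next (s : Stage) : Stage := (exists_next s).choose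

theorem next_spec (s : Stage) : Achieve s (next s) := (exists_next s).choose_spec

/-- the initial stage -/
noncomputable def init : Stage where
  D := 1
  P := ⟨fun _ => 9 / 10, fun _ => 1, fun _ => by norm_num, fun _ => by norm_num⟩
  ρ := 9 / 10
  ε := 1
  hD := le_rfl
  hρ := by norm_num
  hε := one_pos

/-- the sequence of stages -/
noncomputable def seq (n : ℕ) : Stage := next^[n] init

theorem seq_succ (n : ℕ) : seq (n + 1) = next (seq n) := by
  unfold seq
  rw [Function.iterate_succ_apply']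

theorem achieve (n : ℕ) : Achieve (seq n) (seq (n + 1)) := by
  rw [seq_succ]
  exact next_spec _

theorem lt_D (n : ℕ) : n < (seq n).D := by
  induction n with
  | zero => exact (seq 0).hD
  | succ n ih =>
    have := (achieve n).1
    omega

theorem D_mono {m n : ℕ} (h : m ≤ n) : (seq m).D ≤ (seq n).D := by
  induction n, h using Nat.le_induction with
  | base => exact le_rfl
  | succ n _ ih => exact ih.trans (achieve n).1.le

theorem ρ_mono {m n : ℕ} (h : m ≤ n) : (seq m).ρ ≤ (seq n).ρ := by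
  induction n, h using Nat.le_induction with
  | base => exact le_rfl
  | succ n _ ih => exact ih.trans (achieve n).2.1

theorem agree_seq {m n : ℕ} (h : m ≤ n) : Agree (seq m).D (seq n).P (seq m).P := by
  induction n, h using Nat.le_induction with
  | base => exact ⟨fun _ _ => rfl, fun _ _ => rfl⟩
  | succ n hn ih =>
    have h1 := (achieve n).2.2.1
    have h2 := D_mono hn
    exact ⟨fun i hi => (h1.1 i (by omega)).trans (ih.1 i hi),
      fun i hi => (h1.2 i (by omega)).trans (ih.2 i hi)⟩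

/-- the limit parameters -/
noncomputable def lim : Par where
  r := fun i => (seq (i + 1)).P.r i
  a := fun i => (seq (i + 1)).P.a i
  hr := fun i => (seq (i + 1)).P.hr i
  ha := fun i => (seq (i + 1)).P.ha i

theorem lim_r (i n : ℕ) (h : i < (seq n).D) : lim.r i = (seq n).P.r i := by
  show (seq (i + 1)).P.r i = _
  have h1 := lt_D (i + 1)
  rcases le_total (i + 1) n with h2 | h2
  · exact ((agree_seq h2).1 i (by omega)).symm
  · exact (agree_seq h2).1 i h

theorem lim_a (i n : ℕ) (h : i + 1 < (seq n).D) : lim.a i = (seq n).P.a i := by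
  show (seq (i + 1)).P.a i = _
  have h1 := lt_D (i + 1)
  rcases le_total (i + 1) n with h2 | h2
  · exact ((agree_seq h2).2 i h1).symm
  · exact (agree_seq h2).2 i h

theorem lim_agree (n : ℕ) : Agree (seq n).D lim (seq n).P :=
  ⟨fun i hi => lim_r i n hi, fun i hi => lim_a i n hi⟩

theorem lim_lower (n i : ℕ) (h : (seq n).D ≤ i) : (seq n).ρ ≤ lim.r i := by
  -- find the stage containing `i`
  have key : ∀ m, n ≤ m → ∀ i, (seq n).D ≤ i → i < (seq m).D → (seq n).ρ ≤ lim.r i := by
    intro m hm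
    induction m, hm using Nat.le_induction with
    | base => intro i h1 h2; omega
    | succ m hm ih =>
      intro i h1 h2
      by_cases h3 : i < (seq m).D
      · exact ih i h1 h3
      · rw [lim_r i (m + 1) h2]
        exact (ρ_mono hm).trans ((achieve m).2.2.2.1 i (by omega) h2)
  have h1 := lt_D (i + 1)
  rcases le_total n (i + 1) with h2 | h2
  · exact key (i + 1) h2 i h (by omega)
  · have := D_mono h2
    omega

theorem lim_link (n : ℕ) : lim.a ((seq n).D - 1) ≤ (seq n).ε := by
  have h1 := (achieve n).1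
  have h2 := (seq n).hD
  rw [lim_a _ (n + 1) (by omega)]
  exact (achieve n).2.2.2.2.1

theorem lim_good (n : ℕ) : Good lim.T (seq n).D ∧
    ∃ x : L2, ‖x‖ = 1 ∧ ‖lim.T x - (2 : ℂ) • x‖ ≤ 1 / (seq n).D :=
  (achieve n).2.2.2.2.2 lim (lim_agree (n + 1)) (lim_lower (n + 1)) (lim_link (n + 1))

end Pool.Agent.P8H72.Uni
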