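import Pool.Agent.P8H72.Uni.L2

open Polynomial

namespace Pool.Agent.P8H72.Uni

/-- strictly lower triangular operators -/
def Strict (T : L2 →L[ℂ] L2) : Prop := ∀ n f, Tail n f → Tail (n + 1) (T f)

/-- the subdiagonal entries before `D` are at least `ω` -/
def Below (T : L2 →L[ℂ] L2) (D : ℕ) (ω : ℝ) : Prop :=
  ∀ n f, n + 1 < D → Tail n f → ω * ‖f n‖ ≤ ‖T f (n + 1)‖

theorem Strict.pow {T : L2 →L[ℂ] L2} (hT : Strict T) (k n : ℕ) (f : L2) (hf : Tail n f) :
    Tail (n + k) ((T ^ k) f) := by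
  induction k with
  | zero => simpa using hf
  | succ k ih =>
    rw [pow_succ']
    exact hT _ _ ih

theorem Below.pow {T : L2 →L[ℂ] L2} (hT : Strict T) {D : ℕ} {ω : ℝ} (hω : 0 ≤ ω)
    (hB : Below T D ω) (k n : ℕ) (f : L2) (hf : Tail n f) (hk : n + k < D) :
    ω ^ k * ‖f n‖ ≤ ‖(T ^ k) f (n + k)‖ := by
  induction k with
  | zero => simp
  | succ k ih =>
    rw [pow_succ' T]
    have h1 := hB (n + k) ((T ^ k) f) (by omega) (hT.pow k n f hf)
    have h2 := ih (by omega)
    calc ω ^ (k + 1) * ‖f n‖ = ω * (ω ^ k * ‖f n‖) := by ring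
      _ ≤ ω * ‖(T ^ k) f (n + k)‖ := by gcongr
      _ ≤ _ := h1

theorem aeval_tail {T : L2 →L[ℂ] L2} (hT : Strict T) (p : ℂ[X]) (n : ℕ) (f : L2) (hf : Tail n f) :
    Tail n (aeval T p f) ∧ aeval T p f n = p.coeff 0 * f n := by
  have h : aeval T p f = ∑ k ∈ Finset.range (p.natDegree + 1), p.coeff k • (T ^ k) f := by
    rw [Polynomial.aeval_eq_sum_range, sum_apply]
    rfl
  have h2 : ∀ i, aeval T p f i = ∑ k ∈ Finset.range (p.natDegree + 1), p.coeff k * (T ^ k) f i := by
    intro i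
    rw [h, lp.coeFn_sum, Finset.sum_apply]
    rfl
  constructor
  · intro i hi
    rw [h2]
    apply Finset.sum_eq_zero
    intro k _
    rw [hT.pow k n f hf i (by omega), mul_zero]
  · rw [h2, Finset.sum_range_succ']
    rw [Finset.sum_eq_zero, zero_add]
    · simp
    · intro k _
      rw [hT.pow (k + 1) n f hf n (by omega), mul_zero]

/-- triangular solving with uniform bounds -/
theorem solve (D : ℕ) (ω R : ℝ) (hω : 0 < ω) (hR : 0 ≤ R) :
    ∃ C₀ : ℝ, ∀ T : L2 →L[ℂ] L2, ‖T‖ ≤ 3 → Strict T → Below T D ω →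
      ∀ n < D, ∀ f : L2, Tail n f → f n = 1 → ‖f‖ ≤ R →
        ∃ p : ℂ[X], p.coeff 0 = 1 ∧ N p ≤ C₀ ∧ trunc D (aeval T p f) = e n := by
  have key : ∀ m ≤ D, ∃ C₀ : ℝ, 0 ≤ C₀ ∧ ∀ T : L2 →L[ℂ] L2, ‖T‖ ≤ 3 → Strict T → Below T D ω →
      ∀ n < D, ∀ f : L2, Tail n f → f n = 1 → ‖f‖ ≤ R →
        ∃ p : ℂ[X], p.coeff 0 = 1 ∧ N p ≤ C₀ ∧ ∀ i < m, i ≠ n → aeval T p f i = 0 := by
    intro m
    induction m with
    | zero =>
      intro _
      refine ⟨1, zero_le_one, fun T _ _ _ n _ f _ _ _ => ⟨1, by simp, N_one.le, ?_⟩⟩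
      intro i hi
      omega
    | succ m ih =>
      intro hm
      obtain ⟨C₁, hC₁, h⟩ := ih (by omega)
      set L : ℝ := ∑ k ∈ Finset.range (D + 1), (ω ^ k)⁻¹ * 4 ^ k with hL
      have hLk : ∀ k ≤ D, (ω ^ k)⁻¹ * 4 ^ k ≤ L := by
        intro k hk
        rw [hL]
        exact Finset.single_le_sum (f := fun k => (ω ^ k)⁻¹ * 4 ^ k)
          (fun i _ => by positivity) (Finset.mem_range.mpr (by omega))
      have hL0 : 0 ≤ L := Finset.sum_nonneg fun i _ => by positivity
      refine ⟨C₁ * (1 + C₁ * R * L), by positivity, ?_⟩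
      intro T hT1 hT2 hT3 n hn f hf hfn hfR
      obtain ⟨p, hp0, hpN, hp⟩ := h T hT1 hT2 hT3 n hn f hf hfn hfR
      have hmono : C₁ ≤ C₁ * (1 + C₁ * R * L) := by
        have : 0 ≤ C₁ * (C₁ * R * L) := by positivity
        linarith
      obtain ⟨ht, hn1⟩ := aeval_tail hT2 p n f hf
      rw [hp0, hfn, one_mul] at hn1
      rcases lt_trichotomy m n with hmn | hmn | hmn
      · refine ⟨p, hp0, hpN.trans hmono, fun i hi _ => ht i (by omega)⟩
      · refine ⟨p, hp0, hpN.trans hmono, fun i hi hin => ht i (by omega)⟩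
      -- main case
      set y := aeval T p f with hy
      set v := (T ^ (m - n)) y with hv
      have hvm : Tail m v := by
        have := hT2.pow (m - n) n y ht
        rwa [show n + (m - n) = m by omega] at this
      have hvn : ω ^ (m - n) ≤ ‖v m‖ := by
        have := Below.pow hT2 hω.le hT3 (m - n) n y ht (by omega)
        rw [show n + (m - n) = m by omega, hn1, norm_one, mul_one] at this
        exact this
      have hvpos : 0 < ‖v m‖ := lt_of_lt_of_le (by positivity) hvn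
      have hv0 : v m ≠ 0 := norm_pos_iff.mp hvpos
      set c : ℂ := y m / v m with hc
      have hcn : ‖c‖ ≤ C₁ * R * (ω ^ (m - n))⁻¹ := by
        rw [hc, norm_div, div_eq_mul_inv]
        have h1 : ‖y m‖ ≤ C₁ * R := by
          refine (L2.norm_apply_le y m).trans ?_
          refine ((aeval T p).le_opNorm f).trans ?_
          have := (norm_aeval_le T (by linarith) p).trans hpN
          gcongr
        have h2 : ‖v m‖⁻¹ ≤ (ω ^ (m - n))⁻¹ := by
          gcongr
        gcongr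
      refine ⟨p * (1 - C c * X ^ (m - n)), ?_, ?_, ?_⟩
      · rw [Polynomial.mul_coeff_zero, hp0, one_mul, Polynomial.coeff_sub, Polynomial.coeff_one_zero,
          Polynomial.mul_coeff_zero, Polynomial.coeff_X_pow]
        rw [if_neg (by omega)]
        simp
      · refine (N_mul_le _ _).trans ?_
        have h1 : N (1 - C c * X ^ (m - n)) ≤ 1 + C₁ * R * L := by
          have h2 : (1 - C c * X ^ (m - n) : ℂ[X]) = 1 + monomial (m - n) (-c) := by
            rw [← Polynomial.C_mul_X_pow_eq_monomial, C_neg]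
            ring
          rw [h2]
          refine (N_add_le _ _).trans ?_
          rw [N_one, N_monomial, norm_neg]
          refine add_le_add le_rfl ?_
          calc ‖c‖ * 4 ^ (m - n) ≤ (C₁ * R * (ω ^ (m - n))⁻¹) * 4 ^ (m - n) := by gcongr
            _ = C₁ * R * ((ω ^ (m - n))⁻¹ * 4 ^ (m - n)) := by ring
            _ ≤ C₁ * R * L := by
              gcongr
              exact hLk _ (by omega)
        have := N_nonneg (1 - C c * X ^ (m - n))
        gcongr
      · intro i hi hin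
        have h1 : aeval T (p * (1 - C c * X ^ (m - n))) f = y - c • v := by
          rw [mul_sub, mul_one, map_sub, sub_apply, mul_comm p, mul_assoc,
            map_mul, aeval_C, map_mul, map_pow, aeval_X, ← Algebra.smul_def]
          rfl
        rw [h1, lp.coeFn_sub, Pi.sub_apply, lp.coeFn_smul, Pi.smul_apply, smul_eq_mul]
        rcases lt_or_eq_of_le (Nat.lt_succ_iff.mp hi) with h3 | h3
        · rw [hp i h3 hin, hvm i h3]
          simp
        · rw [h3, hc, div_mul_cancel₀ _ hv0, sub_self]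
  obtain ⟨C₀, _, h⟩ := key D le_rfl
  refine ⟨C₀, fun T hT1 hT2 hT3 n hn f hf hfn hfR => ?_⟩
  obtain ⟨p, hp0, hpN, hp⟩ := h T hT1 hT2 hT3 n hn f hf hfn hfR
  refine ⟨p, hp0, hpN, ?_⟩
  obtain ⟨_, hn1⟩ := aeval_tail hT2 p n f hf
  rw [hp0, hfn, one_mul] at hn1
  ext i
  rw [trunc_apply, e_apply]
  by_cases hin : i = n
  · subst hin
    rw [if_pos hn, if_pos rfl, hn1]
  · rw [if_neg hin]
    by_cases hi : i < D
    · rw [if_pos hi, hp i hi hin]
    · rw [if_neg hi]

end Pool.Agent.P8H72.Uni
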